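import Mathlib

set_option autoImplicit false

open Finset

namespace Pool.Agent.Lib.MP_e7a55d_co

/-- Number of vertices of `A` in the class `i`. -/
def cnt {s n : ℕ} (A : Finset (Fin s × Fin n)) (i : Fin s) : ℕ :=
  (A.filter (fun v => v.1 = i)).card

/-- A bad configuration of hyperedges (it contains a Berge cycle). -/
def BadCfg {I X : Type} {m : ℕ} (vtx : I → Fin m → X) (T : Finset I) : Prop :=
  ∃ b : I → Fin m, ∀ j ∈ T, ∃ j' ∈ T, ∃ a : Fin m, a ≠ b j' ∧ vtx j (b j) = vtx j' a

/-- The hyperedge with vertices `e` meets `A` in a sparse pair of classes. -/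
def SparseHit {s n m : ℕ} (T : ℕ → ℕ) (A : Finset (Fin s × Fin n))
    (e : Fin m → Fin s × Fin n) : Prop :=
  ∃ a b, (e a).1 < (e b).1 ∧ e a ∈ A ∧ e b ∈ A ∧
    (T (e a).1 * cnt A (e a).1 < n ∨ T (e a).1 * cnt A (e b).1 < n)

/-- A graph all of whose nonempty vertex sets contain a vertex with fewer than `d` neighbours
inside the set is `d`-colourable. -/
theorem colorable_of_degenerate {V : Type} [Fintype V] [DecidableEq V] (G : SimpleGraph V)
    [DecidableRel G.Adj] (d : ℕ)
    (h : ∀ A : Finset V, A.Nonempty → ∃ v ∈ A, (A.filter (G.Adj v)).card < d) :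
    G.Colorable d := by
  have key : ∀ (k : ℕ) (A : Finset V), A.card = k → ∃ C : V → ℕ, (∀ v ∈ A, C v < d) ∧
      ∀ u ∈ A, ∀ v ∈ A, G.Adj u v → C u ≠ C v := by
    intro k
    induction k with
    | zero =>
      intro A hA
      rw [card_eq_zero] at hA
      subst hA
      exact ⟨fun _ => 0, by simp, by simp⟩
    | succ k ih =>
      intro A hA
      obtain ⟨v, hv, hdeg⟩ := h A (card_pos.mp (by omega))
      obtain ⟨C, hC1, hC2⟩ := ih (A.erase v) (by rw [card_erase_of_mem hv]; omega)
      have hlt : ((A.filter (G.Adj v)).image C).card < (range d).card := by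
        rw [card_range]
        exact lt_of_le_of_lt card_image_le hdeg
      obtain ⟨x, hx, hx'⟩ := exists_mem_notMem_of_card_lt_card hlt
      refine ⟨Function.update C v x, ?_, ?_⟩
      · intro u hu
        by_cases huv : u = v
        · subst huv
          simpa using hx
        · rw [Function.update_of_ne huv]
          exact hC1 u (mem_erase.mpr ⟨huv, hu⟩)
      · intro u hu w hw hadj
        by_cases huv : u = v
        · subst huv
          have hwu : w ≠ u := hadj.ne.symm
          rw [Function.update_self, Function.update_of_ne hwu]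
          intro hc
          exact hx' (mem_image.mpr ⟨w, mem_filter.mpr ⟨hw, hadj⟩, hc.symm⟩)
        · by_cases hwv : w = v
          · subst hwv
            rw [Function.update_self, Function.update_of_ne huv]
            intro hc
            exact hx' (mem_image.mpr ⟨u, mem_filter.mpr ⟨hu, hadj.symm⟩, hc⟩)
          · rw [Function.update_of_ne huv, Function.update_of_ne hwv]
            exact hC2 u (mem_erase.mpr ⟨huv, hu⟩) w (mem_erase.mpr ⟨hwv, hw⟩) hadj
  obtain ⟨C, hC1, hC2⟩ := key _ univ rfl
  exact ⟨SimpleGraph.Coloring.mk (fun v => ⟨C v, hC1 v (mem_univ v)⟩)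
    (fun {u v} huv hc => hC2 u (mem_univ u) v (mem_univ v) huv (by simpa using hc))⟩

/-- Walks inside the range of an induced embedding lift to the source graph. -/
theorem exists_walk_map_eq {V W : Type} {F : SimpleGraph V} {G : SimpleGraph W} (φ : F ↪g G) :
    ∀ {x y : W} (w : G.Walk x y) (a b : V) (ha : φ a = x) (hb : φ b = y),
      (∀ z ∈ w.support, ∃ c, φ c = z) →
      ∃ w' : F.Walk a b, (w'.map φ.toHom).copy ha hb = w := by
  intro x y w
  induction w with
  | nil =>
    intro a b ha hb _
    have hab : a = b := φ.injective (ha.trans hb.symm)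
    subst hab
    subst ha
    exact ⟨SimpleGraph.Walk.nil, rfl⟩
  | @cons u v z huv p ih =>
    intro a b ha hb hs
    obtain ⟨c, hc⟩ := hs v (by simp)
    obtain ⟨w', hw'⟩ := ih c b hc hb (fun t ht => hs t (by simp [ht]))
    subst ha
    subst hc
    subst hb
    have hac : F.Adj a c := φ.map_rel_iff.mp huv
    refine ⟨SimpleGraph.Walk.cons hac w', ?_⟩
    simp only [SimpleGraph.Walk.copy_rfl_rfl] at hw' ⊢
    rw [← hw']
    rfl

theorem egirth_le_of_cycle_in_range {V W : Type} {F : SimpleGraph V} {G : SimpleGraph W}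
    (φ : F ↪g G) {x : W} (w : G.Walk x x) (hw : w.IsCycle)
    (hs : ∀ z ∈ w.support, ∃ c, φ c = z) : F.egirth ≤ w.length := by
  obtain ⟨a, ha⟩ := hs x w.start_mem_support
  obtain ⟨w', hw'⟩ := exists_walk_map_eq φ w a a ha ha hs
  subst ha
  simp only [SimpleGraph.Walk.copy_rfl_rfl] at hw'
  subst hw'
  rw [SimpleGraph.Walk.length_map]
  exact SimpleGraph.egirth_le_length hw.of_map

end Pool.Agent.Lib.MP_e7a55d_co
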