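import Pool.Agent.Lib.MP_e7a55d_co.Basic

set_option autoImplicit false

open Finset

namespace Pool.Agent.Lib.MP_e7a55d_co

theorem card_forall_mem {I X : Type} [Fintype I] [DecidableEq I] [Fintype X] [DecidableEq X]
    (hX : 0 < Fintype.card X) (J : Finset I) (S : I → Finset X) :
    ((univ.filter (fun ω : I → X => ∀ j ∈ J, ω j ∈ S j)).card : ℝ) =
      (Fintype.card (I → X) : ℝ) * ∏ j ∈ J, ((S j).card / Fintype.card X : ℝ) := by
  have h1 : univ.filter (fun ω : I → X => ∀ j ∈ J, ω j ∈ S j) =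
      Fintype.piFinset (fun j => if j ∈ J then S j else univ) := by
    ext ω
    simp only [mem_filter, mem_univ, true_and, Fintype.mem_piFinset]
    constructor
    · intro h j
      by_cases hj : j ∈ J
      · simp [hj, h j hj]
      · simp [hj]
    · intro h j hj
      simpa [hj] using h j
  have hX' : (Fintype.card X : ℝ) ≠ 0 := by exact_mod_cast hX.ne'
  rw [h1, Fintype.card_piFinset, Fintype.card_fun]
  push_cast
  have h2 : ∀ j : I, (((if j ∈ J then S j else univ).card : ℕ) : ℝ) =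
      (Fintype.card X : ℝ) * (if j ∈ J then ((S j).card / Fintype.card X : ℝ) else 1) := by
    intro j
    by_cases hj : j ∈ J
    · simp only [hj, if_true]
      field_simp
    · simp [hj]
  simp_rw [h2]
  rw [prod_mul_distrib, prod_const, card_univ, prod_ite_mem, univ_inter]

theorem esymm_le {I : Type} [DecidableEq I] (s : Finset I) (q : I → ℝ) (hq : ∀ j, 0 ≤ q j)
    (k : ℕ) (t : ℝ) (ht : 0 < t) :
    ∑ J ∈ s.powersetCard k, ∏ j ∈ J, q j ≤ Real.exp (t * ∑ j ∈ s, q j) / t ^ k := by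
  rw [le_div_iff₀ (by positivity), sum_mul]
  calc ∑ J ∈ s.powersetCard k, (∏ j ∈ J, q j) * t ^ k
      = ∑ J ∈ s.powersetCard k, ∏ j ∈ J, (t * q j) := by
        refine sum_congr rfl (fun J hJ => ?_)
        rw [prod_mul_distrib, prod_const, (mem_powersetCard.mp hJ).2, mul_comm]
    _ ≤ ∑ J ∈ s.powerset, ∏ j ∈ J, (t * q j) := by
        refine sum_le_sum_of_subset_of_nonneg (fun J hJ => ?_) (fun J _ _ => ?_)
        · exact mem_powerset.mpr (mem_powersetCard.mp hJ).1
        · exact prod_nonneg (fun j _ => mul_nonneg ht.le (hq j))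
    _ = ∏ j ∈ s, (1 + t * q j) := (prod_one_add s).symm
    _ ≤ ∏ j ∈ s, Real.exp (t * q j) := by
        refine prod_le_prod (fun j _ => ?_) (fun j _ => ?_)
        · have := mul_nonneg ht.le (hq j)
          linarith
        · have := Real.add_one_le_exp (t * q j)
          linarith
    _ = Real.exp (t * ∑ j ∈ s, q j) := by
        rw [mul_sum, Real.exp_sum]

theorem choose_le_exp (N x : ℕ) (t : ℝ) (ht : 0 < t) :
    (N.choose x : ℝ) ≤ Real.exp (t * N) / t ^ x := by
  have := esymm_le (range N) (fun _ => (1 : ℝ)) (fun _ => zero_le_one) x t ht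
  simpa using this

theorem card_det_le {I Y : Type} [Fintype I] [DecidableEq I] [Fintype Y] [DecidableEq Y] {m : ℕ}
    (T : Finset I) (b : T → Fin m) (c : T → T) (a : T → Fin m) (h : ∀ j, a j ≠ b (c j)) :
    (univ.filter (fun ω : I → Fin m → Y => ∀ j : T, ω j (b j) = ω (c j) (a j))).card *
      Fintype.card Y ^ T.card ≤ Fintype.card (I → Fin m → Y) := by
  let Φ : (I → Fin m → Y) × (T → Y) → (I → Fin m → Y) := fun p j a' =>
    if hj : j ∈ T then (if a' = b ⟨j, hj⟩ then p.2 ⟨j, hj⟩ else p.1 j a') else p.1 j a'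
  have hcard : Fintype.card Y ^ T.card = (univ : Finset (T → Y)).card := by
    simp
  rw [hcard, ← card_product, ← card_univ]
  refine card_le_card_of_injOn Φ (fun _ _ => mem_univ _) ?_
  rintro ⟨ω, z⟩ hp ⟨ω', z'⟩ hp' heq
  have hω := (mem_filter.mp (mem_product.mp hp).1).2
  have hω' := (mem_filter.mp (mem_product.mp hp').1).2
  simp only at hω hω'
  have hfree : ∀ (j : I) (a' : Fin m), (∀ hj : j ∈ T, a' ≠ b ⟨j, hj⟩) → ω j a' = ω' j a' := by
    intro j a' hja
    have := congrFun (congrFun heq j) a'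
    by_cases hj : j ∈ T
    · simpa [Φ, hj, hja hj] using this
    · simpa [Φ, hj] using this
  refine Prod.ext ?_ ?_
  · funext j a'
    by_cases hja : ∀ hj : j ∈ T, a' ≠ b ⟨j, hj⟩
    · exact hfree j a' hja
    · push Not at hja
      obtain ⟨hj, rfl⟩ := hja
      exact (hω ⟨j, hj⟩).trans ((hfree _ _ (fun _ => h ⟨j, hj⟩)).trans (hω' ⟨j, hj⟩).symm)
  · funext j
    have := congrFun (congrFun heq j.1) (b j)
    simpa [Φ, j.2] using this

theorem card_slice {s n : ℕ} (B : Finset (Fin s × Fin n)) (i : Fin s) :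
    (univ.filter (fun y : Fin n => (i, y) ∈ B)).card = cnt B i := by
  unfold cnt
  refine card_bij (fun y _ => (i, y)) ?_ ?_ ?_
  · intro y hy
    exact mem_filter.mpr ⟨(mem_filter.mp hy).2, rfl⟩
  · intro y _ y' _ h
    simpa using h
  · rintro ⟨i', y⟩ hv
    obtain ⟨h1, h2⟩ := mem_filter.mp hv
    simp only at h2
    subst h2
    exact ⟨y, mem_filter.mpr ⟨mem_univ _, h1⟩, rfl⟩

/-- Event A: no hyperedge of a given family lands in a dense box. -/
theorem probA {I : Type} [Fintype I] [DecidableEq I] {m s n : ℕ} (hn : 0 < n)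
    (τ : Fin m → Fin s) (J : Finset I) (B : Finset (Fin s × Fin n)) (t : ℕ) (ht : 0 < t)
    (hB : ∀ a, n ≤ t * cnt B (τ a)) :
    ((univ.filter (fun ω : I → Fin m → Fin n => ∀ j ∈ J, ¬ ∀ a, (τ a, ω j a) ∈ B)).card : ℝ) ≤
      (Fintype.card (I → Fin m → Fin n) : ℝ) * Real.exp (- (J.card / (t : ℝ) ^ m)) := by
  have hX : 0 < Fintype.card (Fin m → Fin n) := by
    simp only [Fintype.card_fun, Fintype.card_fin]
    positivity
  set S : Finset (Fin m → Fin n) := univ.filter (fun y => ¬ ∀ a, (τ a, y a) ∈ B) with hS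
  have h1 := card_forall_mem hX J (fun _ => S)
  have h2 : (univ.filter (fun ω : I → Fin m → Fin n => ∀ j ∈ J, ¬ ∀ a, (τ a, ω j a) ∈ B)) =
      univ.filter (fun ω : I → Fin m → Fin n => ∀ j ∈ J, ω j ∈ S) := by
    ext ω
    simp [hS]
  rw [h2, h1]
  refine mul_le_mul_of_nonneg_left ?_ (Nat.cast_nonneg _)
  have hn' : (0 : ℝ) < n := by exact_mod_cast hn
  have ht' : (0 : ℝ) < t := by exact_mod_cast ht
  have hX' : (0 : ℝ) < Fintype.card (Fin m → Fin n) := by exact_mod_cast hX
  have h3 := card_forall_mem (I := Fin m) (X := Fin n) (by simpa using hn) univ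
    (fun a => univ.filter (fun y : Fin n => (τ a, y) ∈ B))
  simp only [mem_univ, mem_filter, true_and, forall_const, card_slice, Fintype.card_fin] at h3
  have h4 : (1 / (t : ℝ) ^ m) ≤ ∏ a : Fin m, ((cnt B (τ a) : ℝ) / n) := by
    have : (1 / (t : ℝ) ^ m) = ∏ _a : Fin m, (1 / (t : ℝ)) := by simp
    rw [this]
    refine prod_le_prod (fun _ _ => by positivity) (fun a _ => ?_)
    rw [div_le_div_iff₀ ht' hn']
    have := hB a
    have h5 : (n : ℝ) ≤ t * cnt B (τ a) := by exact_mod_cast this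
    linarith
  have h5 : (S.card : ℝ) + (univ.filter (fun y : Fin m → Fin n => ∀ a, (τ a, y a) ∈ B)).card =
      Fintype.card (Fin m → Fin n) := by
    have := card_filter_add_card_filter_not (s := (univ : Finset (Fin m → Fin n)))
      (fun y => ∀ a, (τ a, y a) ∈ B)
    rw [card_univ] at this
    rw [hS, add_comm]
    exact_mod_cast this
  have h6 : (S.card : ℝ) / Fintype.card (Fin m → Fin n) ≤ Real.exp (- (1 / (t : ℝ) ^ m)) := by
    rw [div_le_iff₀ hX']
    have h7 := Real.add_one_le_exp (- (1 / (t : ℝ) ^ m))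
    have h8 := mul_le_mul_of_nonneg_left h4 hX'.le
    nlinarith
  calc ∏ _j ∈ J, ((S.card : ℝ) / Fintype.card (Fin m → Fin n))
      ≤ ∏ _j ∈ J, Real.exp (- (1 / (t : ℝ) ^ m)) :=
        prod_le_prod (fun _ _ => by positivity) (fun _ _ => h6)
    _ = Real.exp (- (J.card / (t : ℝ) ^ m)) := by
        rw [prod_const, ← Real.exp_nat_mul]
        congr 1
        ring

open Classical in
/-- A single random hyperedge rarely meets `A` in a sparse pair. -/
theorem probB_single {m s n : ℕ} (hn : 0 < n) (T : ℕ → ℕ) (A : Finset (Fin s × Fin n))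
    (τ : Fin m → Fin s) (M : ℝ) (hM0 : 0 ≤ M)
    (hM : ∀ a b, τ a < τ b → (T (τ a) * cnt A (τ a) < n ∨ T (τ a) * cnt A (τ b) < n) →
      (cnt A (τ a) : ℝ) * cnt A (τ b) ≤ M) :
    ((univ.filter (fun y : Fin m → Fin n => SparseHit T A (fun a => (τ a, y a)))).card : ℝ) /
      Fintype.card (Fin m → Fin n) ≤ (m : ℝ) ^ 2 * M / (n : ℝ) ^ 2 := by
  have hX : 0 < Fintype.card (Fin m → Fin n) := by
    simp only [Fintype.card_fun, Fintype.card_fin]
    positivity
  have hn' : (0 : ℝ) < n := by exact_mod_cast hn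
  have hX' : (0 : ℝ) < Fintype.card (Fin m → Fin n) := by exact_mod_cast hX
  set P : Finset (Fin m × Fin m) := univ.filter (fun p => τ p.1 < τ p.2 ∧
    (T (τ p.1) * cnt A (τ p.1) < n ∨ T (τ p.1) * cnt A (τ p.2) < n)) with hP
  have h1 : univ.filter (fun y : Fin m → Fin n => SparseHit T A (fun a => (τ a, y a))) ⊆
      P.biUnion (fun p => univ.filter (fun y : Fin m → Fin n =>
        ∀ a ∈ ({p.1, p.2} : Finset (Fin m)), y a ∈ univ.filter (fun z : Fin n => (τ a, z) ∈ A))) := by
    intro y hy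
    obtain ⟨a, b, hab, ha, hb, hsp⟩ := (mem_filter.mp hy).2
    refine mem_biUnion.mpr ⟨(a, b), mem_filter.mpr ⟨mem_univ _, hab, hsp⟩, ?_⟩
    simp only [mem_filter, mem_univ, true_and, mem_insert, mem_singleton, forall_eq_or_imp,
      forall_eq]
    exact ⟨ha, hb⟩
  have h2 := le_trans (card_le_card h1) card_biUnion_le
  have h3 : ∀ p ∈ P, ((univ.filter (fun y : Fin m → Fin n =>
        ∀ a ∈ ({p.1, p.2} : Finset (Fin m)),
          y a ∈ univ.filter (fun z : Fin n => (τ a, z) ∈ A))).card : ℝ) ≤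
      Fintype.card (Fin m → Fin n) * (M / (n : ℝ) ^ 2) := by
    intro p hp
    obtain ⟨-, hlt, hsp⟩ := mem_filter.mp hp
    have hne : p.1 ≠ p.2 := fun h => by rw [h] at hlt; exact lt_irrefl _ hlt
    have h7 := card_forall_mem (I := Fin m) (X := Fin n) (by simpa using hn)
      ({p.1, p.2} : Finset (Fin m)) (fun a => univ.filter (fun z : Fin n => (τ a, z) ∈ A))
    rw [prod_pair hne, card_slice, card_slice, Fintype.card_fin] at h7
    have h8 : (Fintype.card (Fin m → Fin n) : ℝ) *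
        ((cnt A (τ p.1) : ℝ) / n * ((cnt A (τ p.2) : ℝ) / n)) ≤
        Fintype.card (Fin m → Fin n) * (M / (n : ℝ) ^ 2) := by
      refine mul_le_mul_of_nonneg_left ?_ hX'.le
      rw [div_mul_div_comm, ← sq]
      exact div_le_div_of_nonneg_right (hM _ _ hlt hsp) (by positivity)
    rw [← h7] at h8
    convert h8
  have h4 : (P.card : ℝ) ≤ (m : ℝ) ^ 2 := by
    have : P.card ≤ (univ : Finset (Fin m × Fin m)).card := card_le_card (subset_univ _)
    rw [card_univ, Fintype.card_prod, Fintype.card_fin] at this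
    rw [sq]
    exact_mod_cast this
  rw [div_le_iff₀ hX']
  calc ((univ.filter (fun y : Fin m → Fin n => SparseHit T A (fun a => (τ a, y a)))).card : ℝ)
      ≤ ∑ p ∈ P, ((univ.filter (fun y : Fin m → Fin n =>
        ∀ a ∈ ({p.1, p.2} : Finset (Fin m)),
          y a ∈ univ.filter (fun z : Fin n => (τ a, z) ∈ A))).card : ℝ) := by exact_mod_cast h2
    _ ≤ ∑ _p ∈ P, Fintype.card (Fin m → Fin n) * (M / (n : ℝ) ^ 2) := sum_le_sum h3
    _ = P.card * (Fintype.card (Fin m → Fin n) * (M / (n : ℝ) ^ 2)) := by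
        rw [sum_const, nsmul_eq_mul]
    _ ≤ (m : ℝ) ^ 2 * (Fintype.card (Fin m → Fin n) * (M / (n : ℝ) ^ 2)) :=
        mul_le_mul_of_nonneg_right h4 (by positivity)
    _ = (m : ℝ) ^ 2 * M / (n : ℝ) ^ 2 * Fintype.card (Fin m → Fin n) := by ring

/-- At least `k` of the independent events happen with small probability. -/
theorem prob_many {I X : Type} [Fintype I] [DecidableEq I] [Fintype X] [DecidableEq X]
    (hX : 0 < Fintype.card X) (S : I → Finset X) (k : ℕ) (μ t : ℝ) (ht : 0 < t)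
    (hμ : ∑ j, ((S j).card / Fintype.card X : ℝ) ≤ μ) :
    ((univ.filter (fun ω : I → X => k ≤ (univ.filter (fun j => ω j ∈ S j)).card)).card : ℝ) ≤
      (Fintype.card (I → X) : ℝ) * (Real.exp (t * μ) / t ^ k) := by
  have h1 : univ.filter (fun ω : I → X => k ≤ (univ.filter (fun j => ω j ∈ S j)).card) ⊆
      ((univ : Finset I).powersetCard k).biUnion
        (fun J => univ.filter (fun ω : I → X => ∀ j ∈ J, ω j ∈ S j)) := by
    intro ω hω
    obtain ⟨J, hJ, hc⟩ := exists_subset_card_eq (mem_filter.mp hω).2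
    refine mem_biUnion.mpr ⟨J, mem_powersetCard.mpr ⟨subset_univ _, hc⟩, ?_⟩
    exact mem_filter.mpr ⟨mem_univ _, fun j hj => (mem_filter.mp (hJ hj)).2⟩
  have h2 := le_trans (card_le_card h1) card_biUnion_le
  calc ((univ.filter (fun ω : I → X => k ≤ (univ.filter (fun j => ω j ∈ S j)).card)).card : ℝ)
      ≤ ∑ J ∈ (univ : Finset I).powersetCard k,
          ((univ.filter (fun ω : I → X => ∀ j ∈ J, ω j ∈ S j)).card : ℝ) := by exact_mod_cast h2
    _ = (Fintype.card (I → X) : ℝ) * ∑ J ∈ (univ : Finset I).powersetCard k,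
          ∏ j ∈ J, ((S j).card / Fintype.card X : ℝ) := by
        rw [mul_sum]
        exact sum_congr rfl (fun J _ => card_forall_mem hX J S)
    _ ≤ (Fintype.card (I → X) : ℝ) * (Real.exp (t * μ) / t ^ k) := by
        refine mul_le_mul_of_nonneg_left ?_ (Nat.cast_nonneg _)
        refine le_trans (esymm_le univ _ (fun j => by positivity) k t ht) ?_
        refine div_le_div_of_nonneg_right ?_ (by positivity)
        exact Real.exp_le_exp.mpr (mul_le_mul_of_nonneg_left hμ ht.le)

open Classical in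
/-- A fixed family of hyperedges is rarely a bad configuration. -/
theorem probC_single {I : Type} [Fintype I] [DecidableEq I] {m n g : ℕ} (hn : 0 < n)
    (T : Finset I) (hT : T.card ≤ g) :
    ((univ.filter (fun ω : I → Fin m → Fin n => BadCfg ω T)).card : ℝ) ≤
      (Fintype.card (I → Fin m → Fin n) : ℝ) * ∏ _j ∈ T, ((g * m ^ 2 : ℝ) / n) := by
  have hn' : (0 : ℝ) < n := by exact_mod_cast hn
  set P : Finset (T → Fin m × T × Fin m) :=
    univ.filter (fun p => ∀ j, (p j).2.2 ≠ (p (p j).2.1).1) with hP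
  have h1 : univ.filter (fun ω : I → Fin m → Fin n => BadCfg ω T) ⊆
      P.biUnion (fun p => univ.filter (fun ω : I → Fin m → Fin n =>
        ∀ j : T, ω j (p j).1 = ω (p j).2.1 (p j).2.2)) := by
    intro ω hω
    obtain ⟨b, hb⟩ := (mem_filter.mp hω).2
    choose c hc a ha1 ha2 using hb
    refine mem_biUnion.mpr ⟨fun j => (b j, ⟨c j j.2, hc j j.2⟩, a j j.2),
      mem_filter.mpr ⟨mem_univ _, fun j => ha1 j j.2⟩,
      mem_filter.mpr ⟨mem_univ _, fun j => ha2 j j.2⟩⟩
  have h2 := le_trans (card_le_card h1) card_biUnion_le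
  have h3 : ∀ p ∈ P, ((univ.filter (fun ω : I → Fin m → Fin n =>
        ∀ j : T, ω j (p j).1 = ω (p j).2.1 (p j).2.2)).card : ℝ) ≤
      (Fintype.card (I → Fin m → Fin n) : ℝ) / (n : ℝ) ^ T.card := by
    intro p hp
    have := card_det_le (Y := Fin n) T (fun j => (p j).1) (fun j => (p j).2.1)
      (fun j => (p j).2.2) (mem_filter.mp hp).2
    rw [Fintype.card_fin] at this
    rw [le_div_iff₀ (by positivity)]
    exact_mod_cast this
  have h4 : (P.card : ℝ) ≤ (g * m ^ 2 : ℝ) ^ T.card := by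
    have h5 : P.card ≤ (univ : Finset (T → Fin m × T × Fin m)).card := card_le_card (subset_univ _)
    rw [card_univ, Fintype.card_fun] at h5
    simp only [Fintype.card_prod, Fintype.card_fin, Fintype.card_coe] at h5
    have h6 : (m * (T.card * m)) ^ T.card ≤ (g * m ^ 2) ^ T.card := by
      refine Nat.pow_le_pow_left ?_ _
      calc m * (T.card * m) = T.card * m ^ 2 := by ring
        _ ≤ g * m ^ 2 := Nat.mul_le_mul_right _ hT
    exact_mod_cast le_trans h5 h6
  calc ((univ.filter (fun ω : I → Fin m → Fin n => BadCfg ω T)).card : ℝ)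
      ≤ ∑ p ∈ P, ((univ.filter (fun ω : I → Fin m → Fin n =>
        ∀ j : T, ω j (p j).1 = ω (p j).2.1 (p j).2.2)).card : ℝ) := by exact_mod_cast h2
    _ ≤ ∑ _p ∈ P, (Fintype.card (I → Fin m → Fin n) : ℝ) / (n : ℝ) ^ T.card := sum_le_sum h3
    _ = P.card * ((Fintype.card (I → Fin m → Fin n) : ℝ) / (n : ℝ) ^ T.card) := by
        rw [sum_const, nsmul_eq_mul]
    _ ≤ (g * m ^ 2 : ℝ) ^ T.card * ((Fintype.card (I → Fin m → Fin n) : ℝ) / (n : ℝ) ^ T.card) :=
        mul_le_mul_of_nonneg_right h4 (by positivity)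
    _ = (Fintype.card (I → Fin m → Fin n) : ℝ) * ∏ _j ∈ T, ((g * m ^ 2 : ℝ) / n) := by
        rw [prod_const, div_pow]
        ring

end Pool.Agent.Lib.MP_e7a55d_co
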