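import Pool.Agent.Lib.MP_e7a55d_co.Basic

set_option autoImplicit false

open Finset

namespace Pool.Agent.Lib.MP_e7a55d_co

section Det

variable {m s n : ℕ} {I : Type}

/-- The union of the copies of `F` placed on the good hyperedges. -/
def hypGraph (F : SimpleGraph (Fin m)) (vtx : I → Fin m → Fin s × Fin n) (good : I → Prop)
    (hinj : ∀ j, Function.Injective (fun a => (vtx j a).1)) : SimpleGraph (Fin s × Fin n) where
  Adj u v := ∃ j, good j ∧ ∃ a b, F.Adj a b ∧ u = vtx j a ∧ v = vtx j b
  symm := ⟨by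
    rintro u v ⟨j, hj, a, b, hab, hu, hv⟩
    exact ⟨j, hj, b, a, hab.symm, hv, hu⟩⟩
  loopless := ⟨by
    rintro u ⟨j, hj, a, b, hab, hu, hv⟩
    have : (vtx j a).1 = (vtx j b).1 := by rw [← hu, ← hv]
    exact hab.ne (hinj j this)⟩

theorem vtx_inj {vtx : I → Fin m → Fin s × Fin n}
    (hinj : ∀ j, Function.Injective (fun a => (vtx j a).1)) (j : I) :
    Function.Injective (vtx j) := fun _ _ h => hinj j (by simp only [h])

/-- A good hyperedge carries an induced copy of `F`. -/
def hypEmb [DecidableEq I] (F : SimpleGraph (Fin m)) (vtx : I → Fin m → Fin s × Fin n)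
    (good : I → Prop)
    (hinj : ∀ j, Function.Injective (fun a => (vtx j a).1)) {g : ℕ} (hg : 2 ≤ g)
    (hC : ∀ T : Finset I, T.card ≤ g → BadCfg vtx T → ∀ j ∈ T, ¬ good j)
    (j : I) (hj : good j) : F ↪g hypGraph F vtx good hinj where
  toFun := vtx j
  inj' := vtx_inj hinj j
  map_rel_iff' := by
    intro a b
    constructor
    · intro h
      have hne : a ≠ b := by
        intro hab
        subst hab
        exact (hypGraph F vtx good hinj).irrefl h
      obtain ⟨j', hj', a', b', hab', ha, hb⟩ := h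
      by_cases hjj : j' = j
      · subst hjj
        have h1 : a = a' := vtx_inj hinj _ ha
        have h2 : b = b' := vtx_inj hinj _ hb
        rw [h1, h2]
        exact hab'
      · exfalso
        refine hC {j, j'} (le_trans card_le_two hg) ?_ j (by simp) hj
        refine ⟨fun i => if i = j then a else b', ?_⟩
        intro i hi
        rcases mem_insert.mp hi with hi | hi
        · subst hi
          refine ⟨j', by simp, a', ?_, ?_⟩
          · simp only [hjj, if_false]
            exact hab'.ne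
          · simpa using ha
        · rw [mem_singleton] at hi
          subst hi
          refine ⟨j, by simp, b, ?_, ?_⟩
          · simp only [if_true]
            exact hne.symm
          · simp only [hjj, if_false]
            exact hb.symm
    · intro h
      exact ⟨j, hj, a, b, h, rfl, rfl⟩

theorem egirth_le_cycle [DecidableEq I] (F : SimpleGraph (Fin m))
    (vtx : I → Fin m → Fin s × Fin n) (good : I → Prop)
    (hinj : ∀ j, Function.Injective (fun a => (vtx j a).1)) {g : ℕ} (hg : 2 ≤ g)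
    (hC : ∀ T : Finset I, T.card ≤ g → BadCfg vtx T → ∀ j ∈ T, ¬ good j)
    {x : Fin s × Fin n} (w : (hypGraph F vtx good hinj).Walk x x) (hw : w.IsCycle)
    (hlen : w.length ≤ g) : F.egirth ≤ w.length := by
  have h3 := hw.three_le_length
  obtain ⟨ℓ, hℓ⟩ : ∃ ℓ, ℓ = w.length := ⟨_, rfl⟩
  have hex : ∀ k : Fin ℓ, ∃ j, good j ∧ ∃ a b, F.Adj a b ∧ w.getVert k = vtx j a ∧
      w.getVert (k + 1) = vtx j b := fun k => w.adj_getVert_succ (hℓ ▸ k.2)
  choose J hJ A B hAB hA hB using hex
  have hpos : 0 < ℓ := by omega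
  by_cases hall : ∀ k, J k = J ⟨0, hpos⟩
  · refine egirth_le_of_cycle_in_range (hypEmb F vtx good hinj hg hC _ (hJ ⟨0, hpos⟩)) w hw ?_
    intro z hz
    obtain ⟨i, hi, hil⟩ := SimpleGraph.Walk.mem_support_iff_exists_getVert.mp hz
    by_cases hi' : i < ℓ
    · refine ⟨A ⟨i, hi'⟩, ?_⟩
      have := hA ⟨i, hi'⟩
      rw [hall] at this
      rw [← hi]
      exact this.symm
    · have hi2 : i = ℓ := by omega
      refine ⟨B ⟨ℓ - 1, by omega⟩, ?_⟩
      have := hB ⟨ℓ - 1, by omega⟩
      rw [hall] at this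
      have e : ℓ - 1 + 1 = i := by omega
      simp only [e] at this
      rw [← hi]
      exact this.symm
  · exfalso
    let nxt : Fin ℓ → Fin ℓ := fun k => if h : k.1 + 1 < ℓ then ⟨k.1 + 1, h⟩ else ⟨0, hpos⟩
    have hnxt : ∀ k, w.getVert (nxt k) = w.getVert (k + 1) := by
      intro k
      by_cases h : k.1 + 1 < ℓ
      · simp only [nxt, h, dif_pos]
      · have e : k.1 + 1 = ℓ := by omega
        simp only [nxt, h, dif_neg, not_false_eq_true]
        rw [e, hℓ, SimpleGraph.Walk.getVert_length, SimpleGraph.Walk.getVert_zero]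
    have hchg : ∀ k0 : Fin ℓ, ∃ k, J k = J k0 ∧ J (nxt k) ≠ J k0 := by
      intro k0
      by_contra hcon
      push Not at hcon
      have step : ∀ (i : ℕ) (k : Fin ℓ) (h : k.1 + i < ℓ), J k = J k0 →
          J ⟨k.1 + i, h⟩ = J k0 := by
        intro i
        induction i with
        | zero => intro k h hk; simpa using hk
        | succ i ih =>
          intro k h hk
          have h1 := ih k (by omega) hk
          have h2 := hcon _ h1
          have h3 : k.1 + i + 1 < ℓ := by omega
          simp only [nxt, h3, dif_pos] at h2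
          exact h2
      have hlast := step (ℓ - 1 - k0.1) k0 (by omega) rfl
      have hzero := hcon _ hlast
      have h4 : ¬ (k0.1 + (ℓ - 1 - k0.1) + 1 < ℓ) := by omega
      simp only [nxt, h4, dif_neg, not_false_eq_true] at hzero
      apply hall
      intro k
      have h5 := step k.1 ⟨0, hpos⟩ (by simp) hzero
      rw [hzero]
      simpa using h5
    have hchg' : ∀ j : I, ∃ k : Fin ℓ, (∃ k0, J k0 = j) → J k = j ∧ J (nxt k) ≠ j := by
      intro j
      by_cases hj : ∃ k0, J k0 = j
      · obtain ⟨k0, rfl⟩ := hj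
        obtain ⟨k, hk⟩ := hchg k0
        exact ⟨k, fun _ => hk⟩
      · exact ⟨⟨0, hpos⟩, fun h => absurd h hj⟩
    choose kk hkk using hchg'
    refine hC (univ.image J) ?_ ?_ (J ⟨0, hpos⟩) (mem_image_of_mem _ (mem_univ _)) (hJ _)
    · refine le_trans card_image_le ?_
      simpa [hℓ] using hlen
    · refine ⟨fun j => B (kk j), ?_⟩
      intro j hj
      obtain ⟨k0, -, hk0⟩ := mem_image.mp hj
      obtain ⟨h1, h2⟩ := hkk j ⟨k0, hk0⟩
      refine ⟨J (nxt (kk j)), mem_image_of_mem _ (mem_univ _), A (nxt (kk j)), ?_, ?_⟩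
      · intro hc
        obtain ⟨h1', -⟩ := hkk (J (nxt (kk j))) ⟨_, rfl⟩
        have e1 := hB (kk (J (nxt (kk j))))
        simp only at hc
        rw [h1', ← hc, ← hA, hnxt] at e1
        have e2 := hw.getVert_injOn (by simp only [Set.mem_ofPred_eq]; omega)
          (by simp only [Set.mem_ofPred_eq]; omega) e1
        have e3 : kk (J (nxt (kk j))) = kk j := Fin.ext (by omega)
        rw [e3, h1] at h1'
        exact h2 h1'.symm
      · simp only
        rw [← hA, hnxt, hB, h1]

theorem exists_inj_of_card {N : Finset (Fin s)} (h : m ≤ N.card) :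
    ∃ τ : Fin m → Fin s, Function.Injective τ ∧ ∀ a, τ a ∈ N := by
  obtain ⟨N', hN', hc⟩ := exists_subset_card_eq h
  refine ⟨fun a => (N'.orderEmbOfFin hc a), (N'.orderEmbOfFin hc).injective, fun a => ?_⟩
  exact hN' (orderEmbOfFin_mem _ _ _)

theorem cnt_univ (i : Fin s) : cnt (univ : Finset (Fin s × Fin n)) i = n := by
  unfold cnt
  have : (univ.filter (fun v : Fin s × Fin n => v.1 = i)) = univ.image (fun y => (i, y)) := by
    ext ⟨a, b⟩
    simp [eq_comm]
  rw [this, card_image_of_injective _ (fun y y' h => by simpa using h)]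
  simp

theorem cnt_mono {A B : Finset (Fin s × Fin n)} (h : A ⊆ B) (i : Fin s) : cnt A i ≤ cnt B i :=
  card_le_card (filter_subset_filter _ h)

theorem not_colorable (F : SimpleGraph (Fin m)) (hF : ∃ a b, F.Adj a b)
    (vtx : I → Fin m → Fin s × Fin n) (good : I → Prop)
    (hinj : ∀ j, Function.Injective (fun a => (vtx j a).1)) (T : ℕ → ℕ) (R : ℕ) (hR : 0 < R)
    (hT : R ≤ T 0) (hs : R * m + 1 ≤ s)
    (hA : ∀ (l : Fin s) (τ : Fin m → Fin s), Function.Injective τ → (∀ a, l < τ a) →
      ∀ B : Finset (Fin s × Fin n), (∀ a, n ≤ T l * cnt B (τ a)) →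
        ∃ j, good j ∧ ∀ a, vtx j a ∈ B) :
    ¬ (hypGraph F vtx good hinj).Colorable R := by
  rintro ⟨C⟩
  have hs0 : 0 < s := by omega
  have hpop : ∀ i : Fin s, ∃ x : Fin R, n ≤ R * cnt (univ.filter (fun v => C v = x)) i := by
    intro i
    by_contra hcon
    push Not at hcon
    have h1 : cnt (univ : Finset (Fin s × Fin n)) i =
        ∑ x : Fin R, cnt (univ.filter (fun v => C v = x)) i := by
      unfold cnt
      rw [card_eq_sum_card_fiberwise (f := fun v => C v) (t := univ) (fun _ _ => mem_univ _)]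
      refine sum_congr rfl (fun x _ => ?_)
      congr 1
      ext v
      simp [and_comm]
    rw [cnt_univ] at h1
    have h2 : ∑ x : Fin R, R * cnt (univ.filter (fun v => C v = x)) i < ∑ _x : Fin R, n :=
      sum_lt_sum_of_nonempty ⟨⟨0, hR⟩, mem_univ _⟩ (fun x _ => hcon x)
    rw [← mul_sum, ← h1] at h2
    simp at h2
  choose κ hκ using hpop
  have hcard : ((univ : Finset (Fin s)).erase ⟨0, hs0⟩).card = s - 1 := by
    rw [card_erase_of_mem (mem_univ _)]
    simp
  obtain ⟨x, -, hx⟩ := exists_le_card_fiber_of_mul_le_card_of_maps_to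
    (s := (univ : Finset (Fin s)).erase ⟨0, hs0⟩) (t := (univ : Finset (Fin R))) (f := κ) (n := m)
    (fun _ _ => mem_univ _) ⟨⟨0, hR⟩, mem_univ _⟩ (by rw [hcard]; simp; omega)
  obtain ⟨τ, hτ, hτN⟩ := exists_inj_of_card hx
  obtain ⟨j, hj, hjB⟩ := hA ⟨0, hs0⟩ τ hτ (fun a => by
      have := (mem_erase.mp (mem_filter.mp (hτN a)).1).1
      exact lt_of_le_of_ne (Fin.le_def.mpr (Nat.zero_le _)) this.symm)
    (univ.filter (fun v => C v = x)) (fun a => by
      have h1 := hκ (τ a)
      rw [(mem_filter.mp (hτN a)).2] at h1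
      exact le_trans h1 (Nat.mul_le_mul_right _ hT))
  obtain ⟨a, b, hab⟩ := hF
  have hadj : (hypGraph F vtx good hinj).Adj (vtx j a) (vtx j b) := ⟨j, hj, a, b, hab, rfl, rfl⟩
  apply C.valid hadj
  rw [(mem_filter.mp (hjB a)).2, (mem_filter.mp (hjB b)).2]

open Classical in
theorem colorable_free [Fintype I] (F : SimpleGraph (Fin m)) (hm : 0 < m)
    (vtx : I → Fin m → Fin s × Fin n) (good : I → Prop)
    (hinj : ∀ j, Function.Injective (fun a => (vtx j a).1)) (T : ℕ → ℕ) {g : ℕ} (hg : 2 ≤ g)
    (hA : ∀ (l : Fin s) (τ : Fin m → Fin s), Function.Injective τ → (∀ a, l < τ a) →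
      ∀ B : Finset (Fin s × Fin n), (∀ a, n ≤ T l * cnt B (τ a)) →
        ∃ j, good j ∧ ∀ a, vtx j a ∈ B)
    (hB : ∀ A : Finset (Fin s × Fin n), A.Nonempty →
      (univ.filter (fun j => SparseHit T A (vtx j))).card < 2 * A.card)
    (hC : ∀ T : Finset I, T.card ≤ g → BadCfg vtx T → ∀ j ∈ T, ¬ good j)
    (S : Set (Fin s × Fin n)) (hS : IsEmpty (F ↪g (hypGraph F vtx good hinj).induce S)) :
    ((hypGraph F vtx good hinj).induce S).Colorable (m * (2 * m ^ 2)) := by
  set G := hypGraph F vtx good hinj with hG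
  set S' : Finset (Fin s × Fin n) := univ.filter (fun v => v ∈ S) with hS'
  -- the graph of dense pairs of classes
  let Γ : SimpleGraph (Fin s) :=
    { Adj := fun i i' => i ≠ i' ∧ n ≤ T (min i i' : Fin s) * cnt S' i ∧
        n ≤ T (min i i' : Fin s) * cnt S' i'
      symm := ⟨by
        rintro i i' ⟨h1, h2, h3⟩
        rw [min_comm] at h2 h3
        exact ⟨h1.symm, h3, h2⟩⟩
      loopless := ⟨fun i h => h.1 rfl⟩ }
  have hΓ : Γ.Colorable m := by
    apply colorable_of_degenerate
    intro A hA0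
    refine ⟨A.min' hA0, min'_mem _ _, ?_⟩
    by_contra hcon
    push Not at hcon
    obtain ⟨τ, hτ, hτN⟩ := exists_inj_of_card hcon
    have hlt : ∀ a, A.min' hA0 < τ a := fun a =>
      lt_of_le_of_ne (min'_le _ _ (mem_filter.mp (hτN a)).1) (mem_filter.mp (hτN a)).2.1
    obtain ⟨j, hj, hjB⟩ := hA (A.min' hA0) τ hτ hlt S' (fun a => by
      have h1 := (mem_filter.mp (hτN a)).2.2.2
      rwa [min_eq_left (hlt a).le] at h1)
    let φ := hypEmb F vtx good hinj hg hC j hj
    refine hS.false ⟨⟨fun a => ⟨vtx j a, (mem_filter.mp (hjB a)).2⟩, ?_⟩, ?_⟩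
    · intro a b hab
      exact vtx_inj hinj j (congrArg Subtype.val hab)
    · intro a b
      exact φ.map_rel_iff
  -- the graph of edges between sparse pairs of classes
  let H : SimpleGraph (Fin s × Fin n) :=
    { Adj := fun u v => G.Adj u v ∧ u ∈ S ∧ v ∈ S ∧ ¬ Γ.Adj u.1 v.1
      symm := ⟨by
        rintro u v ⟨h1, h2, h3, h4⟩
        exact ⟨h1.symm, h3, h2, fun h => h4 h.symm⟩⟩
      loopless := ⟨fun u h => G.irrefl h.1⟩ }
  have hH : H.Colorable (2 * m ^ 2) := by
    apply colorable_of_degenerate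
    intro A hA0
    have hm2 : 0 < 2 * m ^ 2 := by positivity
    by_cases hsub : A ⊆ S'
    · by_contra hcon
      push Not at hcon
      have h1 : A.card * (2 * m ^ 2) ≤ ∑ v ∈ A, (A.filter (H.Adj v)).card := by
        have := card_nsmul_le_sum A (fun v => (A.filter (H.Adj v)).card) (2 * m ^ 2) hcon
        simpa using this
      have h2 : ∑ v ∈ A, (A.filter (H.Adj v)).card =
          ((A ×ˢ A).filter (fun p => H.Adj p.1 p.2)).card := by
        rw [card_filter, sum_product]
        refine sum_congr rfl (fun v _ => ?_)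
        rw [card_filter]
      have h3 : ((A ×ˢ A).filter (fun p => H.Adj p.1 p.2)) ⊆
          ((univ.filter (fun j => SparseHit T A (vtx j))) ×ˢ
            (univ : Finset (Fin m × Fin m))).image
              (fun q => (vtx q.1 q.2.1, vtx q.1 q.2.2)) := by
        rintro ⟨u, v⟩ hp
        obtain ⟨hp1, hadj, -, -, hΓ'⟩ := mem_filter.mp hp
        obtain ⟨hu, hv⟩ := mem_product.mp hp1
        obtain ⟨j, hj, a, b, hab, hua, hvb⟩ := hadj
        simp only at hu hv hua hvb hΓ'
        subst hua
        subst hvb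
        refine mem_image.mpr ⟨(j, a, b), mem_product.mpr ⟨mem_filter.mpr ⟨mem_univ _, ?_⟩,
          mem_univ _⟩, rfl⟩
        have hne : (vtx j a).1 ≠ (vtx j b).1 := fun h => hab.ne (hinj j h)
        have hsp : T (min (vtx j a).1 (vtx j b).1 : Fin s) * cnt A (vtx j a).1 < n ∨
            T (min (vtx j a).1 (vtx j b).1 : Fin s) * cnt A (vtx j b).1 < n := by
          by_contra hc
          push Not at hc
          exact hΓ' ⟨hne, le_trans hc.1 (Nat.mul_le_mul_left _ (cnt_mono hsub _)),
            le_trans hc.2 (Nat.mul_le_mul_left _ (cnt_mono hsub _))⟩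
        rcases lt_or_gt_of_ne hne with hlt | hlt
        · rw [min_eq_left hlt.le] at hsp
          exact ⟨a, b, hlt, hu, hv, hsp⟩
        · rw [min_eq_right hlt.le] at hsp
          exact ⟨b, a, hlt, hv, hu, hsp.symm⟩
      have h4 := le_trans (card_le_card h3) card_image_le
      rw [card_product, card_univ, Fintype.card_prod, Fintype.card_fin] at h4
      have h5 := hB A hA0
      have h6 : (univ.filter (fun j => SparseHit T A (vtx j))).card * (m * m) <
          2 * A.card * (m * m) := Nat.mul_lt_mul_of_pos_right h5 (by positivity)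
      have h7 : A.card * (2 * m ^ 2) = 2 * A.card * (m * m) := by ring
      omega
    · obtain ⟨v, hv, hvS⟩ := not_subset.mp hsub
      refine ⟨v, hv, ?_⟩
      have : A.filter (H.Adj v) = ∅ := by
        rw [filter_eq_empty_iff]
        intro u _ h
        exact hvS (mem_filter.mpr ⟨mem_univ _, h.2.1⟩)
      rw [this, card_empty]
      exact hm2
  obtain ⟨C1⟩ := hΓ
  obtain ⟨C2⟩ := hH
  have C : (G.induce S).Coloring (Fin m × Fin (2 * m ^ 2)) :=
    SimpleGraph.Coloring.mk (fun v => (C1 v.1.1, C2 v.1)) (by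
      intro u v huv hc
      have hc1 : C1 u.1.1 = C1 v.1.1 := congrArg Prod.fst hc
      have hc2 : C2 u.1 = C2 v.1 := congrArg Prod.snd hc
      by_cases h : Γ.Adj u.1.1 v.1.1
      · exact C1.valid h hc1
      · exact C2.valid (show H.Adj u.1 v.1 from ⟨huv, u.2, v.2, h⟩) hc2)
  have := C.colorable
  simpa using this

end Det

end Pool.Agent.Lib.MP_e7a55d_co
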