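import Pool.Agent.Lib.MP_e7a55d_co.Main

/-! Dense sets contain a copy, and small sets without a cut vertex lie inside a copy. -/

set_option autoImplicit false

open Finset

namespace Pool.Agent.Lib.MP_e7a55d_co

/-- A family in which every member has two shared vertices contains a bad configuration. -/
theorem badCfg_of_shared {I X : Type} [DecidableEq I] {m : ℕ} (vtx : I → Fin m → X)
    (T : Finset I) {i0 : I} (hi0 : i0 ∈ T) (a0 : Fin m)
    (h : ∀ i ∈ T, ∀ a, ∃ b, b ≠ a ∧ ∃ j ∈ T, j ≠ i ∧ ∃ c, vtx i b = vtx j c) :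
    ∃ T' ⊆ T, T'.Nonempty ∧ BadCfg vtx T' := by
  classical
  have h' : ∀ p : {p : I × Fin m // p.1 ∈ T}, ∃ (b : Fin m) (q : {p : I × Fin m // p.1 ∈ T}),
      b ≠ p.1.2 ∧ q.1.1 ≠ p.1.1 ∧ vtx p.1.1 b = vtx q.1.1 q.1.2 := fun p => by
    obtain ⟨b, h1, j, h2, h3, c, h4⟩ := h _ p.2 p.1.2
    exact ⟨b, ⟨(j, c), h2⟩, h1, h3, h4⟩
  choose β φ h1 h2 h3 using h'
  let x : ℕ → {p : I × Fin m // p.1 ∈ T} := fun k => φ^[k] ⟨(i0, a0), hi0⟩
  have hx : ∀ k, x (k + 1) = φ (x k) := fun k => Function.iterate_succ_apply' _ _ _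
  have hex : ∃ k', ∃ k < k', (x k).1.1 = (x k').1.1 := by
    obtain ⟨a, b, hab, e⟩ := Finite.exists_ne_map_eq_of_infinite
      fun k => (⟨(x k).1.1, (x k).2⟩ : T)
    rcases lt_or_gt_of_ne hab with l | l
    · exact ⟨b, a, l, congrArg Subtype.val e⟩
    · exact ⟨a, b, l, (congrArg Subtype.val e).symm⟩
  obtain ⟨k, hk, e⟩ := Nat.find_spec hex
  set k' := Nat.find hex with hk'
  have hinj : ∀ s < k', ∀ t < k', (x s).1.1 = (x t).1.1 → s = t := fun s hs t ht e' => by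
    rcases lt_trichotomy s t with l | l | l
    · exact absurd ⟨s, l, e'⟩ (Nat.find_min hex ht)
    · exact l
    · exact absurd ⟨t, l, e'.symm⟩ (Nat.find_min hex hs)
  have hb : ∀ j : I, ∃ b : Fin m, ∀ t < k', (x t).1.1 = j → b = β (x t) := fun j => by
    by_cases hj : ∃ t < k', (x t).1.1 = j
    · obtain ⟨t, ht, e'⟩ := hj
      exact ⟨β (x t), fun s hs e'' => by rw [hinj t ht s hs (e'.trans e''.symm)]⟩
    · exact ⟨a0, fun t ht e' => absurd ⟨t, ht, e'⟩ hj⟩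
  choose b hb using hb
  have hmem : ∀ t, k ≤ t → t < k' → (x t).1.1 ∈ (Ico k k').image fun t => (x t).1.1 :=
    fun t l l' => mem_image_of_mem _ (mem_Ico.2 ⟨l, l'⟩)
  have step : ∀ t, k ≤ t → t + 1 < k' → ∃ j' ∈ (Ico k k').image fun t => (x t).1.1,
      ∃ a, a ≠ b j' ∧ vtx (x t).1.1 (β (x t)) = vtx j' a := fun t l l' =>
    ⟨_, hmem (t + 1) (by omega) l', (x (t + 1)).1.2,
      by rw [hb _ _ l' rfl]; exact (h1 _).symm, by rw [hx]; exact h3 _⟩
  refine ⟨(Ico k k').image fun t => (x t).1.1, fun j hj => ?_, ⟨_, hmem k le_rfl hk⟩, b,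
    fun j hj => ?_⟩
  · obtain ⟨t, -, rfl⟩ := mem_image.1 hj
    exact (x t).2
  obtain ⟨t, ht, rfl⟩ := mem_image.1 hj
  rw [mem_Ico] at ht
  rw [hb _ t ht.2 rfl]
  by_cases l : t + 1 < k'
  · exact step t ht.1 l
  have e1 : k' = t + 1 := by omega
  have e2 : vtx (x t).1.1 (β (x t)) = vtx (x k).1.1 (x k').1.2 := by
    rw [e, e1, hx]; exact h3 _
  by_cases l' : (x k').1.2 = β (x k)
  · have : k + 1 < k' := by
      by_contra hc
      have e3 : k' = k + 1 := by omega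
      exact h2 (x k) (by rw [← hx, ← e3, e])
    rw [e2, l']
    exact step k le_rfl this
  · exact ⟨_, hmem k le_rfl hk, _, by rwa [hb _ k hk rfl], e2⟩

variable {m s n : ℕ} {I : Type}

theorem local_copy [DecidableEq I] (F : SimpleGraph (Fin m)) (vtx : I → Fin m → Fin s × Fin n)
    (good : I → Prop) (hinj : ∀ j, Function.Injective (fun a => (vtx j a).1)) {g : ℕ}
    (hC : ∀ T : Finset I, T.card ≤ g → BadCfg vtx T → ∀ j ∈ T, ¬ good j)
    (W : Finset (Fin s × Fin n)) (hW : W.card ^ 2 ≤ g)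
    (h0 : ((hypGraph F vtx good hinj).induce (W : Set _)).Connected)
    (hc : ∀ v ∈ W, ((hypGraph F vtx good hinj).induce ((W : Set _) \ {v})).Connected) :
    ∃ j, good j ∧ ∀ w ∈ W, ∃ a, w = vtx j a := by
  classical
  by_contra hcon
  push Not at hcon
  set G := hypGraph F vtx good hinj with hG
  have hsel : ∀ p : {p : (Fin s × Fin n) × (Fin s × Fin n) // G.Adj p.1 p.2},
      ∃ j, good j ∧ ∃ a b, a ≠ b ∧ p.1.1 = vtx j a ∧ p.1.2 = vtx j b := fun p => by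
    obtain ⟨j, h1, a, b, h2, h3⟩ := p.2
    exact ⟨j, h1, a, b, h2.ne, h3⟩
  choose J hJ hJ' using hsel
  let E := (univ : Finset {p : (Fin s × Fin n) × (Fin s × Fin n) // G.Adj p.1 p.2}).filter
    fun p => p.1.1 ∈ W ∧ p.1.2 ∈ W
  have hE : E.card ≤ g := by
    refine le_trans (card_le_card_of_injOn (t := W ×ˢ W) Subtype.val (fun p hp => ?_)
      Subtype.val_injective.injOn) (by rwa [card_product, ← sq])
    exact mem_coe.2 (mem_product.2 (mem_filter.1 (mem_coe.1 hp)).2)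
  -- a walk that leaves a set has an edge that leaves the set
  have leave0 : ∀ (A : Set (Fin s × Fin n)) (P : Fin s × Fin n → Prop) (y x : Fin s × Fin n),
      (G.induce A).Connected → y ∈ A → x ∈ A → P y → ¬ P x →
      ∃ u u', u ∈ A ∧ u' ∈ A ∧ G.Adj u u' ∧ P u ∧ ¬ P u' := by
    intro A P y x h h1 h3 h5 h6
    obtain ⟨w⟩ := h.preconnected ⟨y, h1⟩ ⟨x, h3⟩
    obtain ⟨d, -, d1, d2⟩ := w.exists_boundary_dart {z | P z.1} h5 h6
    exact ⟨_, _, d.fst.2, d.snd.2, d.adj, d1, d2⟩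
  have leave : ∀ (v : Fin s × Fin n) (P : Fin s × Fin n → Prop) (y x : Fin s × Fin n), y ∈ W →
      y ≠ v → x ∈ W → x ≠ v → P y → ¬ P x →
      ∃ u u', u ∈ W ∧ u' ∈ W ∧ u ≠ v ∧ G.Adj u u' ∧ P u ∧ ¬ P u' := by
    intro v P y x h1 h2 h3 h4 h5 h6
    by_cases hv : v ∈ W
    · obtain ⟨u, u', k1, k2, k3⟩ := leave0 _ P y x (hc v hv) ⟨h1, h2⟩ ⟨h3, h4⟩ h5 h6
      exact ⟨u, u', k1.1, k2.1, k1.2, k3⟩
    · obtain ⟨u, u', k1, k2, k3⟩ := leave0 _ P y x h0 h1 h3 h5 h6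
      exact ⟨u, u', k1, k2, fun k => hv (k ▸ k1), k3⟩
  obtain ⟨⟨y, hy⟩⟩ := h0.nonempty
  obtain ⟨⟨x, hx, hxy⟩⟩ := (hc y hy).nonempty
  have hne : ∃ p, p ∈ E := by
    obtain ⟨u, u', k1, k2, k3, -⟩ := leave0 _ (· = y) y x h0 hy hx rfl hxy
    exact ⟨⟨(u, u'), k3⟩, mem_filter.2 ⟨mem_univ _, k1, k2⟩⟩
  obtain ⟨p0, hp0⟩ := hne
  obtain ⟨a0, -⟩ := hJ' p0
  obtain ⟨T', t1, ⟨j, t2⟩, t3⟩ := badCfg_of_shared vtx (E.image J)
    (mem_image_of_mem J hp0) a0 fun i hi a => by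
      obtain ⟨p, hp, rfl⟩ := mem_image.1 hi
      obtain ⟨p1, p2⟩ := (mem_filter.1 hp).2
      obtain ⟨c, d, hcd, e1, e2⟩ := hJ' p
      obtain ⟨z, z1, z2⟩ := hcon _ (hJ p)
      obtain ⟨y', y1, y2, y3⟩ : ∃ y' ∈ W, y' ≠ vtx (J p) a ∧ ∃ c, y' = vtx (J p) c := by
        by_cases l : c = a
        · exact ⟨_, p2, e2 ▸ fun k => hcd (l.trans (vtx_inj hinj _ k).symm), d, e2⟩
        · exact ⟨_, p1, e1 ▸ fun k => l (vtx_inj hinj _ k), c, e1⟩
      obtain ⟨u, u', k1, k2, k3, k4, ⟨b, rfl⟩, k6⟩ := leave (vtx (J p) a)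
        (fun w => ∃ c, w = vtx (J p) c) y' z y1 y2 z1 (z2 a) y3 fun ⟨c, k⟩ => z2 c k
      obtain ⟨c', d', -, f1, f2⟩ := hJ' ⟨(_, u'), k4⟩
      exact ⟨b, fun k => k3 (k ▸ rfl), _, mem_image_of_mem J
        (mem_filter.2 ⟨mem_univ (⟨(_, u'), k4⟩ : {p : _ × _ // G.Adj p.1 p.2}), k1, k2⟩),
        fun k => k6 ⟨d', k ▸ f2⟩, c', f1⟩
  obtain ⟨p, -, rfl⟩ := mem_image.1 (t1 t2)
  exact hC T' ((card_le_card t1).trans (card_image_le.trans hE)) t3 _ t2 (hJ p)

/-- A set of density at least `1 / r` is dense in `m` classes above the lowest one. -/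
theorem dense_copy (vtx : I → Fin m → Fin s × Fin n) (good : I → Prop) (T : ℕ → ℕ) {r : ℕ}
    (hT : 2 * r ≤ T 0) (hs : 2 * r * m + 1 ≤ s)
    (hA : ∀ (l : Fin s) (τ : Fin m → Fin s), Function.Injective τ → (∀ a, l < τ a) →
      ∀ B : Finset (Fin s × Fin n), (∀ a, n ≤ T l * cnt B (τ a)) →
        ∃ j, good j ∧ ∀ a, vtx j a ∈ B)
    (B : Finset (Fin s × Fin n)) (hB : s * n ≤ r * B.card) (hms : m + 1 ≤ s) :
    ∃ j, good j ∧ ∀ a, vtx j a ∈ B := by
  have hs0 : 0 < s := by omega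
  set N := (univ : Finset (Fin s)).filter fun i => i ≠ ⟨0, hs0⟩ ∧ n ≤ T 0 * cnt B i with hN
  by_cases h : m ≤ N.card
  · obtain ⟨τ, h1, h2⟩ := exists_inj_of_card h
    exact hA ⟨0, hs0⟩ τ h1 (fun a => lt_of_le_of_ne (Fin.le_def.2 (Nat.zero_le _))
      (mem_filter.1 (h2 a)).2.1.symm) B fun a => (mem_filter.1 (h2 a)).2.2
  exfalso
  have hn : 0 < n := by
    by_contra h0
    have h1 : n = 0 := by omega
    have h2 : N = univ.erase ⟨0, hs0⟩ := by
      ext i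
      simp [hN, h1]
    rw [h2, card_erase_of_mem (mem_univ _), card_univ, Fintype.card_fin] at h
    omega
  have h1 : B.card = ∑ i, cnt B i := card_eq_sum_card_fiberwise fun _ _ => mem_univ _
  have h2 : ∀ i, 2 * r * cnt B i ≤ n + if i ∈ insert ⟨0, hs0⟩ N then 2 * r * n else 0 := fun i => by
    split_ifs with k
    · exact le_add_left (Nat.mul_le_mul_left _ ((cnt_mono (subset_univ B) i).trans (cnt_univ i).le))
    · rw [mem_insert, not_or, hN, mem_filter, not_and, not_and, not_le] at k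
      exact (Nat.mul_le_mul_right _ hT).trans (k.2 (mem_univ _) k.1).le
  have h3 := sum_le_sum fun i (_ : i ∈ (univ : Finset (Fin s))) => h2 i
  rw [← mul_sum, ← h1, sum_add_distrib, sum_ite_mem, univ_inter, sum_const, sum_const, card_univ,
    Fintype.card_fin, smul_eq_mul, smul_eq_mul] at h3
  have h4 : (insert ⟨0, hs0⟩ N).card * (2 * r * n) ≤ m * (2 * r * n) :=
    Nat.mul_le_mul_right _ ((card_insert_le _ _).trans (by omega))
  have h5 := Nat.mul_le_mul_right n hs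
  nlinarith

theorem main_loc (m : ℕ) (F : SimpleGraph (Fin m)) (hF : ¬ F.IsAcyclic) (r L : ℕ) :
    ∃ (s n : ℕ) (G : SimpleGraph (Fin s × Fin n)), ¬ G.Colorable (r + 1) ∧ G.egirth = F.egirth ∧
      (∀ S : Set (Fin s × Fin n), IsEmpty (F ↪g G.induce S) →
        (G.induce S).Colorable (m * (2 * m ^ 2))) ∧
      (∀ B : Finset (Fin s × Fin n), s * n ≤ r * B.card → ∃ f : F ↪g G, ∀ a, f a ∈ B) ∧
      ∀ W : Finset (Fin s × Fin n), W.card ≤ L → (G.induce (W : Set _)).Connected →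
        (∀ v ∈ W, (G.induce ((W : Set _) \ {v})).Connected) →
        ∃ f : F ↪g G, ∀ w ∈ W, ∃ a, w = f a := by
  classical
  obtain ⟨a0, w0, hw0, hlen0⟩ := SimpleGraph.exists_egirth_eq_length.mpr hF
  have h3 := hw0.three_le_length
  have hm : 0 < m := Fin.pos a0
  obtain ⟨n, T, I, _, vtx, good, hT, hinj, hA, hB, hC⟩ :=
    exists_structure m (2 * (r + 1) * m + 1) (w0.length + L ^ 2) (2 * (r + 1)) hm (Nat.succ_pos _)
  have hg : 2 ≤ w0.length + L ^ 2 := by omega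
  have hd := fun B h => dense_copy vtx good T hT le_rfl hA B h (by nlinarith)
  refine ⟨_, n, hypGraph F vtx good hinj, not_colorable F
      ⟨_, _, w0.adj_getVert_succ (i := 0) (by omega)⟩ vtx good hinj T (r + 1) r.succ_pos (by omega)
      (by nlinarith) hA, le_antisymm ?_ ?_,
    colorable_free F hm vtx good hinj T hg hA (by convert hB) hC, fun B h => ?_,
    fun W h1 h2 h4 => ?_⟩
  · obtain ⟨j, hj, -⟩ := hd univ (by
      rw [card_univ, Fintype.card_prod, Fintype.card_fin, Fintype.card_fin]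
      exact Nat.le_mul_of_pos_left _ r.succ_pos)
    exact (hypEmb F vtx good hinj hg hC j hj).isContained.egirth_le
  · rw [SimpleGraph.le_egirth]
    intro x w hw
    by_cases hlen : w.length ≤ w0.length
    · exact egirth_le_cycle F vtx good hinj hg hC w hw (by omega)
    · rw [hlen0]
      exact_mod_cast (not_le.mp hlen).le
  · obtain ⟨j, hj, k⟩ := hd B (h.trans (Nat.mul_le_mul_right _ r.le_succ))
    exact ⟨hypEmb F vtx good hinj hg hC j hj, k⟩
  · obtain ⟨j, hj, k⟩ := local_copy F vtx good hinj hC W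
      ((Nat.pow_le_pow_left h1 2).trans (by omega)) h2 h4
    exact ⟨hypEmb F vtx good hinj hg hC j hj, k⟩

end Pool.Agent.Lib.MP_e7a55d_co
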