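import Pool.Agent.Lib.MP_e7a55d_co.Prob
import Pool.Agent.Lib.MP_e7a55d_co.Det

set_option autoImplicit false

open Finset

namespace Pool.Agent.Lib.MP_e7a55d_co

/-- The density thresholds of the successive scales. -/
def thr (m s L t0 : ℕ) : ℕ → ℕ
  | 0 => t0 + 1
  | l + 1 => (L * ((s + 1) * (2 * thr m s L t0 l) ^ m)) ^ 2

/-- The degrees of the successive scales. -/
def dgr (m s L t0 l : ℕ) : ℕ := (s + 1) * (2 * thr m s L t0 l) ^ m

theorem thr_pos (m s L t0 : ℕ) (hL : 0 < L) : ∀ l, 0 < thr m s L t0 l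
  | 0 => Nat.succ_pos _
  | l + 1 => by
    have := thr_pos m s L t0 hL l
    unfold thr
    positivity

theorem dgr_pos (m s L t0 : ℕ) (hL : 0 < L) (l : ℕ) : 0 < dgr m s L t0 l := by
  have := thr_pos m s L t0 hL l
  unfold dgr
  positivity

theorem thr_mono (m s L t0 : ℕ) (hL : 0 < L) (hm : 0 < m) : Monotone (thr m s L t0) := by
  refine monotone_nat_of_le_succ (fun l => ?_)
  have h := thr_pos m s L t0 hL l
  have h1 : thr m s L t0 l ≤ (2 * thr m s L t0 l) ^ m :=
    le_trans (by omega) (Nat.le_self_pow hm.ne' _)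
  have h2 : (2 * thr m s L t0 l) ^ m ≤ L * ((s + 1) * (2 * thr m s L t0 l) ^ m) :=
    le_trans (Nat.le_mul_of_pos_left _ (Nat.succ_pos s)) (Nat.le_mul_of_pos_left _ hL)
  calc thr m s L t0 l ≤ L * ((s + 1) * (2 * thr m s L t0 l) ^ m) := le_trans h1 h2
    _ ≤ (L * ((s + 1) * (2 * thr m s L t0 l) ^ m)) ^ 2 := Nat.le_self_pow two_ne_zero _
    _ = thr m s L t0 (l + 1) := rfl

theorem dgr_mono (m s L t0 : ℕ) (hL : 0 < L) (hm : 0 < m) : Monotone (dgr m s L t0) := by
  intro l l' h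
  unfold dgr
  exact Nat.mul_le_mul_left _ (Nat.pow_le_pow_left
    (Nat.mul_le_mul_left _ (thr_mono m s L t0 hL hm h)) _)

/-- Types of hyperedges: a scale `l` and an injective placement into the classes above `l`. -/
abbrev Ty (m s : ℕ) : Type :=
  {p : Fin s × (Fin m → Fin s) // Function.Injective p.2 ∧ ∀ a, p.1 < p.2 a}

theorem exists_avoid {X : Type} [Fintype X] [Nonempty X] (SA SB SC : Finset X)
    (hA : (SA.card : ℝ) ≤ Fintype.card X / 4) (hB : (SB.card : ℝ) ≤ Fintype.card X / 4)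
    (hC : (SC.card : ℝ) ≤ Fintype.card X / 4) : ∃ ω, ω ∉ SA ∧ ω ∉ SB ∧ ω ∉ SC := by
  classical
  have h0 : (0 : ℝ) < Fintype.card X := by exact_mod_cast Fintype.card_pos
  have hlt : (SA ∪ SB ∪ SC).card < (univ : Finset X).card := by
    have h1 : (SA ∪ SB ∪ SC).card ≤ SA.card + SB.card + SC.card :=
      le_trans (card_union_le _ _) (Nat.add_le_add_right (card_union_le _ _) _)
    have h2 : ((SA ∪ SB ∪ SC).card : ℝ) ≤ SA.card + SB.card + SC.card := by exact_mod_cast h1
    have h3 : ((SA ∪ SB ∪ SC).card : ℝ) < Fintype.card X := by linarith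
    rw [card_univ]
    exact_mod_cast h3
  obtain ⟨ω, -, hω⟩ := exists_mem_notMem_of_card_lt_card hlt
  rw [mem_union, mem_union, not_or, not_or] at hω
  exact ⟨ω, hω.1.1, hω.1.2, hω.2⟩

open Classical in
theorem exists_structure (m s g t0 : ℕ) (hm : 0 < m) (hs : 0 < s) :
    ∃ (n : ℕ) (T : ℕ → ℕ) (I : Type) (_ : Fintype I) (vtx : I → Fin m → Fin s × Fin n)
      (good : I → Prop), t0 ≤ T 0 ∧
      (∀ j, Function.Injective (fun a => (vtx j a).1)) ∧
      (∀ (l : Fin s) (τ : Fin m → Fin s), Function.Injective τ → (∀ a, l < τ a) →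
        ∀ B : Finset (Fin s × Fin n), (∀ a, n ≤ T l * cnt B (τ a)) →
          ∃ j, good j ∧ ∀ a, vtx j a ∈ B) ∧
      (∀ A : Finset (Fin s × Fin n), A.Nonempty →
        (univ.filter (fun j => SparseHit T A (vtx j))).card < 2 * A.card) ∧
      (∀ T' : Finset I, T'.card ≤ g → BadCfg vtx T' → ∀ j ∈ T', ¬ good j) := by
  set Q : ℕ := Fintype.card (Ty m s) with hQ
  set L : ℕ := 9 * s * (m ^ 2 * Q) + 1 with hL
  have hL0 : 0 < L := Nat.succ_pos _
  set T : ℕ → ℕ := thr m s L t0 with hT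
  set D : ℕ → ℕ := dgr m s L t0 with hD
  set K : ℕ := Q * D s with hK
  set E : ℝ := Real.exp (g * m ^ 2 * K) with hE
  have hE0 : 0 < E := Real.exp_pos _
  obtain ⟨n, hn1⟩ := exists_nat_ge ((4 * Q + 1 : ℝ) + 2 * T s * (m * (g * (4 * E))))
  have haux : (0 : ℝ) ≤ 2 * T s * (m * (g * (4 * E))) := by positivity
  have hn2 : 4 * Q + 1 ≤ n := by
    have : ((4 * Q + 1 : ℕ) : ℝ) ≤ n := by
      push_cast
      linarith
    exact_mod_cast this
  have hn3 : (2 * T s * (m * (g * (4 * E))) : ℝ) ≤ n := by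
    have : (0 : ℝ) ≤ 4 * Q + 1 := by positivity
    linarith
  have hn : 0 < n := by omega
  have hn' : (0 : ℝ) < n := by exact_mod_cast hn
  let I : Type := Σ p : Ty m s, Fin (D p.1.1 * n)
  let ty : I → Fin m → Fin s := fun j => j.1.1.2
  let J : Ty m s → Finset I := fun p =>
    univ.map ⟨fun r => (⟨p, r⟩ : I), fun r r' h => eq_of_heq (Sigma.mk.inj h).2⟩
  have hJc : ∀ p, (J p).card = D p.1.1 * n := fun p => by simp [J]
  have hIc : Fintype.card I ≤ K * n := by
    rw [Fintype.card_sigma]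
    simp only [Fintype.card_fin]
    calc ∑ p : Ty m s, D p.1.1 * n ≤ ∑ _p : Ty m s, D s * n :=
          sum_le_sum (fun p _ => Nat.mul_le_mul_right _ (dgr_mono m s L t0 hL0 hm p.1.1.2.le))
      _ = K * n := by
          rw [sum_const, card_univ, smul_eq_mul, hK, mul_assoc]
  have hA := eventA (I := I) hn (fun p : Ty m s => p.1.2) J (fun p => 2 * T p.1.1)
    (fun p => by have := thr_pos m s L t0 hL0 p.1.1; positivity)
    (fun p => by rw [hJc]; rfl) (by omega)
  have hB := eventB (I := I) hn hs T ty (fun j => (L : ℝ) * D j.1.1.1)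
    (fun j => by
      have := dgr_pos m s L t0 hL0 j.1.1.1
      positivity)
    (fun j a => by
      have h1 : (j.1.1.1 : ℕ) + 1 ≤ ty j a := j.1.2.2 a
      have h2 := thr_mono m s L t0 hL0 hm h1
      have h3 : thr m s L t0 (j.1.1.1 + 1) = (L * D j.1.1.1) ^ 2 := rfl
      rw [h3] at h2
      exact_mod_cast h2)
    (by
      have h1 : ∑ j : I, 1 / ((L : ℝ) * D j.1.1.1) = Q * (n / L) := by
        rw [Fintype.sum_sigma]
        have h2 : ∀ p : Ty m s, ∑ _r : Fin (D p.1.1 * n), 1 / ((L : ℝ) * D p.1.1) = n / L := by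
          intro p
          have h3 : (0 : ℝ) < D p.1.1 := by exact_mod_cast dgr_pos m s L t0 hL0 p.1.1
          have h4 : (0 : ℝ) < L := by exact_mod_cast hL0
          rw [sum_const, card_univ, Fintype.card_fin, nsmul_eq_mul]
          push_cast
          field_simp
        rw [sum_congr rfl (fun p _ => h2 p), sum_const, card_univ, nsmul_eq_mul]
      rw [h1]
      have h4 : (0 : ℝ) < L := by exact_mod_cast hL0
      have h5 : (0 : ℝ) < s := by exact_mod_cast hs
      have h6 : (L : ℝ) = 9 * s * (m ^ 2 * Q) + 1 := by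
        rw [hL]
        push_cast
        ring
      have h7 : (m : ℝ) ^ 2 * Q / L ≤ 1 / (9 * s) := by
        rw [div_le_div_iff₀ h4 (by positivity), h6]
        nlinarith
      have h8 : (m : ℝ) ^ 2 * ((Q : ℝ) * ((n : ℝ) / L)) = (m : ℝ) ^ 2 * Q / L * n := by ring
      rw [h8]
      exact mul_le_mul_of_nonneg_right h7 hn'.le)
  have hC := eventC (I := I) (m := m) (g := g) hn hIc
  have : Nonempty (I → Fin m → Fin n) := ⟨fun _ _ => ⟨0, hn⟩⟩
  obtain ⟨ω, hωA, hωB, hωC⟩ := exists_avoid _ _ _ hA hB hC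
  simp only [mem_filter, mem_univ, true_and] at hωA hωB hωC
  push Not at hωA hωB hωC
  let vtx : I → Fin m → Fin s × Fin n := fun j a => (ty j a, ω j a)
  let Bd : Finset (Finset I) := univ.filter (fun T : Finset I => T.card ≤ g ∧ BadCfg ω T)
  let Jb : Finset I := Bd.biUnion id
  let W : Finset (Fin s × Fin n) := Jb.biUnion (fun j => univ.image (vtx j))
  have hJb : Jb.card ≤ Bd.card * g :=
    card_biUnion_le_card_mul _ _ _ (fun T' hT' => (mem_filter.mp hT').2.1)
  have hW : W.card ≤ Jb.card * m :=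
    card_biUnion_le_card_mul _ _ _ (fun j _ => le_trans card_image_le (by simp))
  have hW2 : 2 * T s * W.card ≤ n := by
    have h1 : (W.card : ℝ) ≤ m * (g * (4 * E)) := by
      have h2 : (W.card : ℝ) ≤ Jb.card * m := by exact_mod_cast hW
      have h3 : (Jb.card : ℝ) ≤ Bd.card * g := by exact_mod_cast hJb
      have h4 : (Bd.card : ℝ) ≤ 4 * E := hωC
      calc (W.card : ℝ) ≤ Jb.card * m := h2
        _ ≤ (Bd.card * g) * m := mul_le_mul_of_nonneg_right h3 (Nat.cast_nonneg _)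
        _ ≤ ((4 * E) * g) * m := mul_le_mul_of_nonneg_right
            (mul_le_mul_of_nonneg_right h4 (Nat.cast_nonneg _)) (Nat.cast_nonneg _)
        _ = m * (g * (4 * E)) := by ring
    have h5 : (2 * T s * W.card : ℝ) ≤ n :=
      le_trans (mul_le_mul_of_nonneg_left h1 (by positivity)) hn3
    exact_mod_cast h5
  refine ⟨n, T, I, inferInstance, vtx, fun j => j ∉ Jb, Nat.le_succ _, fun j => j.1.2.1, ?_, ?_, ?_⟩
  · intro l τ hτ hl B hBd
    obtain ⟨j, hj, hjB⟩ := hωA ⟨(l, τ), hτ, hl⟩ (B \ W) (fun a => by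
      have h1 : cnt B (τ a) ≤ cnt (B \ W) (τ a) + W.card := by
        unfold cnt
        refine le_trans (card_le_card ?_) (card_union_le _ W)
        intro v hv
        by_cases hvW : v ∈ W
        · exact mem_union_right _ hvW
        · exact mem_union_left _ (mem_filter.mpr
            ⟨mem_sdiff.mpr ⟨(mem_filter.mp hv).1, hvW⟩, (mem_filter.mp hv).2⟩)
      have h2 : T l ≤ T s := thr_mono m s L t0 hL0 hm l.2.le
      have h3 := hBd a
      have h4 : T l * cnt B (τ a) ≤ T l * cnt (B \ W) (τ a) + T s * W.card := by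
        calc T l * cnt B (τ a) ≤ T l * (cnt (B \ W) (τ a) + W.card) := Nat.mul_le_mul_left _ h1
          _ = T l * cnt (B \ W) (τ a) + T l * W.card := by ring
          _ ≤ _ := Nat.add_le_add_left (Nat.mul_le_mul_right _ h2) _
      show n ≤ 2 * T l * cnt (B \ W) (τ a)
      have h5 : 2 * T l * cnt (B \ W) (τ a) = 2 * (T l * cnt (B \ W) (τ a)) := by ring
      have h6 : 2 * T s * W.card = 2 * (T s * W.card) := by ring
      omega)
    obtain ⟨r, -, rfl⟩ := mem_map.mp hj
    refine ⟨⟨⟨(l, τ), hτ, hl⟩, r⟩, ?_, fun a => (mem_sdiff.mp (hjB a)).1⟩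
    intro hb
    exact (mem_sdiff.mp (hjB ⟨0, hm⟩)).2
      (mem_biUnion.mpr ⟨_, hb, mem_image.mpr ⟨⟨0, hm⟩, mem_univ _, rfl⟩⟩)
  · intro A hA0
    exact hωB A hA0
  · intro T' hT' hbad j hj hnot
    apply hnot
    refine mem_biUnion.mpr ⟨T', mem_filter.mpr ⟨mem_univ _, hT', ?_⟩, hj⟩
    obtain ⟨b, hb⟩ := hbad
    refine ⟨b, fun i hi => ?_⟩
    obtain ⟨j', hj', a, ha1, ha2⟩ := hb i hi
    exact ⟨j', hj', a, ha1, congrArg Prod.snd ha2⟩

theorem main_prod (m : ℕ) (F : SimpleGraph (Fin m)) (hF : ¬ F.IsAcyclic) (r : ℕ) :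
    ∃ (s n : ℕ) (G : SimpleGraph (Fin s × Fin n)),
      ¬ G.Colorable (r + 1) ∧ G.egirth = F.egirth ∧
      ∀ S : Set (Fin s × Fin n), IsEmpty (F ↪g G.induce S) →
        (G.induce S).Colorable (m * (2 * m ^ 2)) := by
  classical
  obtain ⟨a0, w0, hw0, hlen0⟩ := SimpleGraph.exists_egirth_eq_length.mpr hF
  have h3 := hw0.three_le_length
  have hm : 0 < m := Fin.pos a0
  have hedge : ∃ a b, F.Adj a b := ⟨_, _, w0.adj_getVert_succ (i := 0) (by omega)⟩
  obtain ⟨n, T, I, _, vtx, good, hT, hinj, hA, hB, hC⟩ :=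
    exists_structure m ((r + 1) * m + 1) w0.length (r + 1) hm (Nat.succ_pos _)
  have hg : 2 ≤ w0.length := by omega
  have hnc := not_colorable F hedge vtx good hinj T (r + 1) (Nat.succ_pos _) hT le_rfl hA
  refine ⟨_, n, hypGraph F vtx good hinj, hnc, ?_, ?_⟩
  · refine le_antisymm ?_ ?_
    · have hex : ∃ j, good j := by
        by_contra hcon
        push Not at hcon
        apply hnc
        refine ⟨SimpleGraph.Coloring.mk (fun _ => 0) ?_⟩
        rintro u v ⟨j, hj, -⟩
        exact absurd hj (hcon j)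
      obtain ⟨j, hj⟩ := hex
      exact (hypEmb F vtx good hinj hg hC j hj).isContained.egirth_le
    · rw [SimpleGraph.le_egirth]
      intro x w hw
      by_cases hlen : w.length ≤ w0.length
      · exact egirth_le_cycle F vtx good hinj hg hC w hw hlen
      · rw [hlen0]
        exact_mod_cast (not_le.mp hlen).le
  · intro S hS
    exact colorable_free F hm vtx good hinj T hg hA (by convert hB) hC S hS

theorem main (m : ℕ) (F : SimpleGraph (Fin m)) (hF : ¬ F.IsAcyclic) :
    ∃ c : ℕ, ∀ r : ℕ, ∃ (n : ℕ) (G : SimpleGraph (Fin n)),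
      (r : ℕ∞) < G.chromaticNumber ∧
      G.egirth = F.egirth ∧
      ∀ S : Set (Fin n), IsEmpty (F ↪g G.induce S) →
        (G.induce S).chromaticNumber ≤ (c : ℕ∞) := by
  refine ⟨m * (2 * m ^ 2), fun r => ?_⟩
  obtain ⟨s, n, G, h1, h2, h3⟩ := main_prod m F hF r
  let e : Fin (s * n) ≃ Fin s × Fin n := finProdFinEquiv.symm
  let φ : G.comap e ≃g G := SimpleGraph.Iso.comap e G
  refine ⟨s * n, G.comap e, ?_, ?_, ?_⟩
  · by_contra hcon
    rw [not_lt, SimpleGraph.chromaticNumber_le_iff_colorable] at hcon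
    exact h1 ((SimpleGraph.colorable_congr φ).mp (hcon.mono (Nat.le_succ r)))
  · rw [φ.egirth_eq, h2]
  · intro S hS
    let ψ : (G.comap e).induce S ≃g G.induce (e '' S) :=
      { toEquiv := e.image S
        map_rel_iff' := by
          intro a b
          rfl }
    rw [SimpleGraph.chromaticNumber_le_iff_colorable, SimpleGraph.colorable_congr ψ]
    exact h3 _ ⟨fun f => hS.false (ψ.symm.toEmbedding.comp f)⟩

end Pool.Agent.Lib.MP_e7a55d_co
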