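import Pool.Agent.Lib.MP_e7a55d_co.Main

/-!
The girth analogue holds with the explicit constant `c(F) = 2 |V(F)| ^ 3`.
-/

set_option autoImplicit false

namespace Pool.Agent.Lib.MP_e7a55d_co.OldCubicBound

open Pool.Agent.Lib.MP_e7a55d_co

theorem result {V : Type*} [Fintype V] (F : SimpleGraph V) (hF : ¬ F.IsAcyclic) (r : ℕ) :
    ∃ (n : ℕ) (G : SimpleGraph (Fin n)),
      ¬ G.Colorable r ∧ G.egirth = F.egirth ∧
      ∀ S : Set (Fin n), (∀ T : Set (Fin n), T ⊆ S → IsEmpty (G.induce T ≃g F)) →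
        (G.induce S).Colorable (2 * Fintype.card V ^ 3) := by
  let e0 : Fin (Fintype.card V) ≃ V := (Fintype.equivFin V).symm
  let φ0 : F.comap e0 ≃g F := SimpleGraph.Iso.comap e0 F
  obtain ⟨s, n, G, h1, h2, h3⟩ := main_prod (Fintype.card V) (F.comap e0)
    (fun h => hF (φ0.isAcyclic_iff.1 h)) r
  let e : Fin (s * n) ≃ Fin s × Fin n := finProdFinEquiv.symm
  let φ : G.comap e ≃g G := SimpleGraph.Iso.comap e G
  refine ⟨s * n, G.comap e, ?_, ?_, ?_⟩
  · intro hcon
    exact h1 ((SimpleGraph.colorable_congr φ).mp (hcon.mono (Nat.le_succ r)))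
  · rw [φ.egirth_eq, h2, φ0.egirth_eq]
  · intro S hS
    let ψ : (G.comap e).induce S ≃g G.induce (e '' S) :=
      { toEquiv := e.image S
        map_rel_iff' := by
          intro a b
          rfl }
    rw [SimpleGraph.colorable_congr ψ,
      show 2 * Fintype.card V ^ 3 = Fintype.card V * (2 * Fintype.card V ^ 2) by ring]
    refine h3 _ ⟨fun f => ?_⟩
    let g : F ↪g (G.comap e).induce S :=
      ψ.symm.toEmbedding.comp (f.comp φ0.symm.toEmbedding)
    let g' : F ↪g G.comap e := (SimpleGraph.Embedding.induce S).comp g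
    refine (hS (Set.range g') ?_).false g'.isoInduceRange.symm
    rintro _ ⟨v, rfl⟩
    exact (g v).2

end Pool.Agent.Lib.MP_e7a55d_co.OldCubicBound
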