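import Pool.Agent.Lib.MP_e7a55d_co.Count

set_option autoImplicit false

open Finset

namespace Pool.Agent.Lib.MP_e7a55d_co

open Classical in
/-- Event A, union bound over types and boxes. -/
theorem eventA {P I : Type} [Fintype P] [Fintype I] [DecidableEq I] {m s n : ℕ} (hn : 0 < n)
    (τ : P → Fin m → Fin s) (J : P → Finset I) (t : P → ℕ) (ht : ∀ p, 0 < t p)
    (hJ : ∀ p, (s + 1) * t p ^ m * n ≤ (J p).card) (hP : 4 * Fintype.card P ≤ n) :
    ((univ.filter (fun ω : I → Fin m → Fin n => ∃ p, ∃ B : Finset (Fin s × Fin n),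
      (∀ a, n ≤ t p * cnt B (τ p a)) ∧ ∀ j ∈ J p, ¬ ∀ a, (τ p a, ω j a) ∈ B)).card : ℝ) ≤
      (Fintype.card (I → Fin m → Fin n) : ℝ) / 4 := by
  set Ω : ℝ := (Fintype.card (I → Fin m → Fin n) : ℝ) with hΩ
  have hΩ0 : 0 ≤ Ω := Nat.cast_nonneg _
  set Q : Finset (P × Finset (Fin s × Fin n)) :=
    univ.filter (fun q => ∀ a, n ≤ t q.1 * cnt q.2 (τ q.1 a)) with hQ
  have h1 : univ.filter (fun ω : I → Fin m → Fin n => ∃ p, ∃ B : Finset (Fin s × Fin n),
      (∀ a, n ≤ t p * cnt B (τ p a)) ∧ ∀ j ∈ J p, ¬ ∀ a, (τ p a, ω j a) ∈ B) ⊆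
      Q.biUnion (fun q => univ.filter (fun ω : I → Fin m → Fin n =>
        ∀ j ∈ J q.1, ¬ ∀ a, (τ q.1 a, ω j a) ∈ q.2)) := by
    intro ω hω
    obtain ⟨p, B, h1, h2⟩ := (mem_filter.mp hω).2
    exact mem_biUnion.mpr ⟨(p, B), mem_filter.mpr ⟨mem_univ _, h1⟩,
      mem_filter.mpr ⟨mem_univ _, h2⟩⟩
  have h2 := le_trans (card_le_card h1) card_biUnion_le
  have h3 : ∀ q ∈ Q, ((univ.filter (fun ω : I → Fin m → Fin n =>
        ∀ j ∈ J q.1, ¬ ∀ a, (τ q.1 a, ω j a) ∈ q.2)).card : ℝ) ≤
      Ω * Real.exp (- (((s : ℝ) + 1) * n)) := by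
    intro q hq
    have h4 := probA hn (τ q.1) (J q.1) q.2 (t q.1) (ht q.1) (mem_filter.mp hq).2
    refine le_trans (by convert h4) (mul_le_mul_of_nonneg_left ?_ hΩ0)
    refine Real.exp_le_exp.mpr (neg_le_neg ?_)
    have ht' : (0 : ℝ) < t q.1 := by exact_mod_cast ht q.1
    rw [le_div_iff₀ (by positivity)]
    have h5 : (((s + 1) * t q.1 ^ m * n : ℕ) : ℝ) ≤ (J q.1).card := by exact_mod_cast hJ q.1
    push_cast at h5
    linarith
  have h4 : (Q.card : ℝ) ≤ Fintype.card P * 2 ^ (s * n) := by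
    have : Q.card ≤ (univ : Finset (P × Finset (Fin s × Fin n))).card :=
      card_le_card (subset_univ _)
    rw [card_univ, Fintype.card_prod, Fintype.card_finset, Fintype.card_prod, Fintype.card_fin,
      Fintype.card_fin] at this
    exact_mod_cast this
  have h5 : (Fintype.card P : ℝ) * 2 ^ (s * n) * Real.exp (- (((s : ℝ) + 1) * n)) ≤ 1 / 4 := by
    have e1 : (2 : ℝ) ^ (s * n) ≤ Real.exp ((s : ℝ) * n) := by
      have : Real.exp ((s : ℝ) * n) = Real.exp 1 ^ (s * n) := by
        rw [← Real.exp_nat_mul]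
        congr 1
        push_cast
        ring
      rw [this]
      refine pow_le_pow_left₀ (by norm_num) ?_ _
      have := Real.add_one_le_exp 1
      linarith
    have e2 : Real.exp ((s : ℝ) * n) * Real.exp (- (((s : ℝ) + 1) * n)) * Real.exp n = 1 := by
      rw [← Real.exp_add, ← Real.exp_add]
      have : (s : ℝ) * n + - (((s : ℝ) + 1) * n) + n = 0 := by ring
      rw [this, Real.exp_zero]
    have e3 : (4 : ℝ) * Fintype.card P ≤ Real.exp n := by
      have e4 : (4 : ℝ) * Fintype.card P ≤ n := by exact_mod_cast hP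
      have := Real.add_one_le_exp (n : ℝ)
      linarith
    have e5 := Real.exp_pos (- (((s : ℝ) + 1) * n))
    have e6 := Real.exp_pos ((s : ℝ) * n)
    have e7 : (0 : ℝ) ≤ Fintype.card P := Nat.cast_nonneg _
    calc (Fintype.card P : ℝ) * 2 ^ (s * n) * Real.exp (- (((s : ℝ) + 1) * n))
        ≤ (Real.exp n / 4) * Real.exp ((s : ℝ) * n) * Real.exp (- (((s : ℝ) + 1) * n)) := by
          refine mul_le_mul_of_nonneg_right ?_ e5.le
          exact mul_le_mul (by linarith) e1 (by positivity) (by positivity)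
      _ = (Real.exp ((s : ℝ) * n) * Real.exp (- (((s : ℝ) + 1) * n)) * Real.exp n) / 4 := by
          ring
      _ = 1 / 4 := by rw [e2]
  calc _ ≤ ∑ q ∈ Q, ((univ.filter (fun ω : I → Fin m → Fin n =>
        ∀ j ∈ J q.1, ¬ ∀ a, (τ q.1 a, ω j a) ∈ q.2)).card : ℝ) := by exact_mod_cast h2
    _ ≤ ∑ _q ∈ Q, Ω * Real.exp (- (((s : ℝ) + 1) * n)) := sum_le_sum h3
    _ = Q.card * (Ω * Real.exp (- (((s : ℝ) + 1) * n))) := by rw [sum_const, nsmul_eq_mul]
    _ ≤ (Fintype.card P * 2 ^ (s * n)) * (Ω * Real.exp (- (((s : ℝ) + 1) * n))) :=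
        mul_le_mul_of_nonneg_right h4 (by positivity)
    _ = Ω * ((Fintype.card P : ℝ) * 2 ^ (s * n) * Real.exp (- (((s : ℝ) + 1) * n))) := by ring
    _ ≤ Ω * (1 / 4) := mul_le_mul_of_nonneg_left h5 hΩ0
    _ = Ω / 4 := by ring

theorem cnt_le_card {s n : ℕ} (A : Finset (Fin s × Fin n)) (i : Fin s) : cnt A i ≤ A.card :=
  card_filter_le _ _

open Classical in
/-- Event B for one vertex set. -/
theorem eventB_single {I : Type} [Fintype I] [DecidableEq I] {m s n : ℕ} (hn : 0 < n)
    (T : ℕ → ℕ) (ty : I → Fin m → Fin s) (d : I → ℝ) (hd : ∀ j, 0 < d j) (κ : ℝ) (hκ : 0 < κ)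
    (hT : ∀ j a, d j ^ 2 ≤ T (ty j a)) (hsum : (m : ℝ) ^ 2 * ∑ j, 1 / d j ≤ κ * n)
    (A : Finset (Fin s × Fin n)) (hA : A.Nonempty) :
    ((univ.filter (fun ω : I → Fin m → Fin n => 2 * A.card ≤
      (univ.filter (fun j => SparseHit T A (fun a => (ty j a, ω j a)))).card)).card : ℝ) ≤
      (Fintype.card (I → Fin m → Fin n) : ℝ) *
        (Real.exp A.card * (κ ^ 2 * A.card / n) ^ A.card) := by
  have hn' : (0 : ℝ) < n := by exact_mod_cast hn
  set x : ℝ := (A.card : ℝ) with hx
  have hx0 : 0 < x := by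
    rw [hx]
    exact_mod_cast card_pos.mpr hA
  set σ : ℝ := Real.sqrt (x / n) with hσ
  have hσ0 : 0 < σ := Real.sqrt_pos.mpr (by positivity)
  have hσ2 : σ ^ 2 = x / n := Real.sq_sqrt (by positivity)
  have hX : 0 < Fintype.card (Fin m → Fin n) := by
    simp only [Fintype.card_fun, Fintype.card_fin]
    positivity
  set S : I → Finset (Fin m → Fin n) := fun j =>
    univ.filter (fun y : Fin m → Fin n => SparseHit T A (fun a => (ty j a, y a))) with hS
  have hkey : ∀ (j : I) (a : Fin m) (y : ℕ), y ≤ A.card → T (ty j a) * y < n →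
      (y : ℝ) ≤ n * σ / d j := by
    intro j a y hy hlt
    have hy' : (y : ℝ) ≤ x := by
      rw [hx]
      exact_mod_cast hy
    have hlt' : (T (ty j a) : ℝ) * y ≤ n := by exact_mod_cast hlt.le
    have hy0 : (0 : ℝ) ≤ y := Nat.cast_nonneg _
    have h1 : d j ^ 2 * y ≤ n := le_trans (mul_le_mul_of_nonneg_right (hT j a) hy0) hlt'
    rw [le_div_iff₀ (hd j)]
    refine (pow_le_pow_iff_left₀ (mul_nonneg hy0 (hd j).le) (by positivity) two_ne_zero).mp ?_
    have h2 : ((n : ℝ) * σ) ^ 2 = n * x := by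
      rw [mul_pow, hσ2]
      field_simp
    rw [h2]
    calc ((y : ℝ) * d j) ^ 2 = (d j ^ 2 * y) * y := by ring
      _ ≤ n * x := mul_le_mul h1 hy' hy0 hn'.le
  have hq : ∀ j, ((S j).card / Fintype.card (Fin m → Fin n) : ℝ) ≤
      (m : ℝ) ^ 2 * (1 / d j) * (x * σ / n) := by
    intro j
    have hdj := hd j
    have h1 := probB_single hn T A (ty j) (x * (n * σ / d j)) (by positivity) (by
      intro a b _ hsp
      have ha : (cnt A (ty j a) : ℝ) ≤ x := by
        rw [hx]
        exact_mod_cast cnt_le_card A _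
      have hb : (cnt A (ty j b) : ℝ) ≤ x := by
        rw [hx]
        exact_mod_cast cnt_le_card A _
      rcases hsp with h | h
      · rw [mul_comm]
        exact mul_le_mul hb (hkey j a _ (cnt_le_card A _) h) (Nat.cast_nonneg _) hx0.le
      · exact mul_le_mul ha (hkey j a _ (cnt_le_card A _) h) (Nat.cast_nonneg _) hx0.le)
    refine le_trans h1 (le_of_eq ?_)
    field_simp
  have hμ : ∑ j, ((S j).card / Fintype.card (Fin m → Fin n) : ℝ) ≤ κ * x * σ := by
    refine le_trans (sum_le_sum (fun j _ => hq j)) ?_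
    rw [← sum_mul, ← mul_sum]
    calc ((m : ℝ) ^ 2 * ∑ j, 1 / d j) * (x * σ / n) ≤ (κ * n) * (x * σ / n) :=
          mul_le_mul_of_nonneg_right hsum (by positivity)
      _ = κ * x * σ := by field_simp
  have h2 := prob_many hX S (2 * A.card) (κ * x * σ) (1 / (κ * σ)) (by positivity) hμ
  have h3 : (univ.filter (fun ω : I → Fin m → Fin n => 2 * A.card ≤
      (univ.filter (fun j => SparseHit T A (fun a => (ty j a, ω j a)))).card)) =
      univ.filter (fun ω : I → Fin m → Fin n =>
        2 * A.card ≤ (univ.filter (fun j => ω j ∈ S j)).card) := by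
    ext ω
    simp [hS]
  rw [h3]
  refine le_trans (by convert h2) (le_of_eq ?_)
  congr 1
  have e1 : 1 / (κ * σ) * (κ * x * σ) = x := by field_simp
  rw [e1, pow_mul, div_eq_mul_inv, ← inv_pow]
  congr 2
  rw [mul_div_assoc, ← hσ2]
  field_simp

open Classical in
/-- Event B, union bound over vertex sets. -/
theorem eventB {I : Type} [Fintype I] [DecidableEq I] {m s n : ℕ} (hn : 0 < n) (hs : 0 < s)
    (T : ℕ → ℕ) (ty : I → Fin m → Fin s) (d : I → ℝ) (hd : ∀ j, 0 < d j)
    (hT : ∀ j a, d j ^ 2 ≤ T (ty j a))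
    (hsum : (m : ℝ) ^ 2 * ∑ j, 1 / d j ≤ 1 / (9 * s) * n) :
    ((univ.filter (fun ω : I → Fin m → Fin n => ∃ A : Finset (Fin s × Fin n), A.Nonempty ∧
      2 * A.card ≤
      (univ.filter (fun j => SparseHit T A (fun a => (ty j a, ω j a)))).card)).card : ℝ) ≤
      (Fintype.card (I → Fin m → Fin n) : ℝ) / 4 := by
  set Ω : ℝ := (Fintype.card (I → Fin m → Fin n) : ℝ) with hΩ
  have hΩ0 : 0 ≤ Ω := Nat.cast_nonneg _
  have hn' : (0 : ℝ) < n := by exact_mod_cast hn
  have hs' : (1 : ℝ) ≤ s := by exact_mod_cast hs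
  set κ : ℝ := 1 / (9 * s) with hκ
  have hκ0 : 0 < κ := by positivity
  let f : ℕ → ℝ := fun x => if x = 0 then 0 else Real.exp x * (κ ^ 2 * x / n) ^ x
  have h1 : univ.filter (fun ω : I → Fin m → Fin n => ∃ A : Finset (Fin s × Fin n), A.Nonempty ∧
      2 * A.card ≤ (univ.filter (fun j => SparseHit T A (fun a => (ty j a, ω j a)))).card) ⊆
      (univ : Finset (Fin s × Fin n)).powerset.biUnion (fun A =>
        univ.filter (fun ω : I → Fin m → Fin n => A.Nonempty ∧ 2 * A.card ≤
          (univ.filter (fun j => SparseHit T A (fun a => (ty j a, ω j a)))).card)) := by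
    intro ω hω
    obtain ⟨A, h1, h2⟩ := (mem_filter.mp hω).2
    exact mem_biUnion.mpr ⟨A, mem_powerset.mpr (subset_univ _),
      mem_filter.mpr ⟨mem_univ _, h1, h2⟩⟩
  have h2 := le_trans (card_le_card h1) card_biUnion_le
  have h3 : ∀ A ∈ (univ : Finset (Fin s × Fin n)).powerset,
      ((univ.filter (fun ω : I → Fin m → Fin n => A.Nonempty ∧ 2 * A.card ≤
          (univ.filter (fun j => SparseHit T A (fun a => (ty j a, ω j a)))).card)).card : ℝ) ≤
      Ω * f A.card := by
    intro A _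
    by_cases hA : A.Nonempty
    · have h4 := eventB_single hn T ty d hd κ hκ0 hT hsum A hA
      have h5 : A.card ≠ 0 := (card_pos.mpr hA).ne'
      simp only [hA, true_and, f, h5, if_false]
      exact h4
    · have h5 : A.card = 0 := by
        rw [not_nonempty_iff_eq_empty] at hA
        simp [hA]
      simp [hA, f, h5]
  have h4 : ∑ A ∈ (univ : Finset (Fin s × Fin n)).powerset, f A.card ≤ 1 / 4 := by
    rw [sum_powerset_apply_card, card_univ, Fintype.card_prod, Fintype.card_fin,
      Fintype.card_fin, sum_range_succ']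
    have h5 : ∀ x ∈ range (s * n), (s * n).choose (x + 1) • f (x + 1) ≤
        (1 / 8 : ℝ) * (1 / 2) ^ x := by
      intro x _
      set y : ℕ := x + 1 with hy
      have hy0 : (0 : ℝ) < y := by
        rw [hy]
        positivity
      have hN : (0 : ℝ) < s * n := by positivity
      have h6 := choose_le_exp (s * n) y (y / (s * n)) (by positivity)
      have e1 : (y : ℝ) / (s * n) * ((s * n : ℕ) : ℝ) = y := by
        push_cast
        field_simp
      rw [e1] at h6
      have hyne : y ≠ 0 := by omega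
      simp only [f, hyne, if_false, nsmul_eq_mul]
      have e2 : Real.exp y = Real.exp 1 ^ y := by
        rw [← Real.exp_nat_mul, mul_one]
      have e3 : Real.exp 1 ≤ 3 := by
        have := Real.exp_one_lt_d9
        linarith
      have e4 := Real.exp_pos 1
      calc ((s * n).choose y : ℝ) * (Real.exp y * (κ ^ 2 * y / n) ^ y)
          ≤ (Real.exp y / (y / (s * n)) ^ y) * (Real.exp y * (κ ^ 2 * y / n) ^ y) :=
            mul_le_mul_of_nonneg_right h6 (by positivity)
        _ = (Real.exp 1 ^ 2 * (κ ^ 2 * s)) ^ y := by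
            rw [e2, ← div_pow, ← mul_pow, ← mul_pow]
            congr 1
            field_simp
        _ ≤ (1 / 8) ^ y := by
            refine pow_le_pow_left₀ (by positivity) ?_ _
            have e5 : κ ^ 2 * s ≤ 1 / 81 := by
              rw [hκ]
              have : (1 / (9 * (s : ℝ))) ^ 2 * s = 1 / 81 * (1 / s) := by
                field_simp
                norm_num
              rw [this]
              have : 1 / (s : ℝ) ≤ 1 := by
                rw [div_le_one (by linarith)]
                exact hs'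
              linarith
            have e6 : Real.exp 1 ^ 2 ≤ 9 := by nlinarith
            calc Real.exp 1 ^ 2 * (κ ^ 2 * s) ≤ 9 * (1 / 81) :=
                  mul_le_mul e6 e5 (by positivity) (by norm_num)
              _ ≤ 1 / 8 := by norm_num
        _ ≤ (1 / 8 : ℝ) * (1 / 2) ^ x := by
            rw [hy, pow_succ, mul_comm]
            refine mul_le_mul_of_nonneg_left ?_ (by norm_num)
            exact pow_le_pow_left₀ (by norm_num) (by norm_num) _
    have h6 := sum_le_sum h5
    rw [← mul_sum] at h6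
    have h7 := sum_geometric_two_le (s * n)
    simp only [f, if_true, smul_zero, add_zero]
    simp only [f] at h6
    linarith
  calc _ ≤ ∑ A ∈ (univ : Finset (Fin s × Fin n)).powerset,
      ((univ.filter (fun ω : I → Fin m → Fin n => A.Nonempty ∧ 2 * A.card ≤
          (univ.filter (fun j => SparseHit T A (fun a => (ty j a, ω j a)))).card)).card : ℝ) := by
        exact_mod_cast h2
    _ ≤ ∑ A ∈ (univ : Finset (Fin s × Fin n)).powerset, Ω * f A.card := sum_le_sum h3
    _ = Ω * ∑ A ∈ (univ : Finset (Fin s × Fin n)).powerset, f A.card := by rw [mul_sum]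
    _ ≤ Ω * (1 / 4) := mul_le_mul_of_nonneg_left h4 hΩ0
    _ = Ω / 4 := by ring

open Classical in
/-- Event C: few short bad configurations (Markov). -/
theorem eventC {I : Type} [Fintype I] [DecidableEq I] {m n g K : ℕ} (hn : 0 < n)
    (hK : Fintype.card I ≤ K * n) :
    ((univ.filter (fun ω : I → Fin m → Fin n => 4 * Real.exp (g * m ^ 2 * K) <
      ((univ.filter (fun T : Finset I => T.card ≤ g ∧ BadCfg ω T)).card : ℝ))).card : ℝ) ≤
      (Fintype.card (I → Fin m → Fin n) : ℝ) / 4 := by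
  set Ω : ℝ := (Fintype.card (I → Fin m → Fin n) : ℝ) with hΩ
  have hΩ0 : 0 ≤ Ω := Nat.cast_nonneg _
  have hn' : (0 : ℝ) < n := by exact_mod_cast hn
  set E : ℝ := Real.exp (g * m ^ 2 * K) with hE
  have hE0 : 0 < E := Real.exp_pos _
  have h1 : ∑ ω : I → Fin m → Fin n,
      ((univ.filter (fun T : Finset I => T.card ≤ g ∧ BadCfg ω T)).card : ℝ) ≤ Ω * E := by
    have h2 : ∑ ω : I → Fin m → Fin n,
        ((univ.filter (fun T : Finset I => T.card ≤ g ∧ BadCfg ω T)).card : ℝ) =
        ∑ T : Finset I, ((univ.filter (fun ω : I → Fin m → Fin n =>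
          T.card ≤ g ∧ BadCfg ω T)).card : ℝ) := by
      simp_rw [card_filter]
      push_cast
      rw [sum_comm]
    rw [h2]
    have h3 : ∀ T : Finset I, ((univ.filter (fun ω : I → Fin m → Fin n =>
          T.card ≤ g ∧ BadCfg ω T)).card : ℝ) ≤ Ω * ∏ _j ∈ T, ((g * m ^ 2 : ℝ) / n) := by
      intro T
      by_cases hT : T.card ≤ g
      · simp only [hT, true_and]
        exact probC_single hn T hT
      · simp only [hT, false_and, filter_false, card_empty, Nat.cast_zero]
        exact mul_nonneg hΩ0 (prod_nonneg (fun _ _ => by positivity))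
    refine le_trans (sum_le_sum (fun T _ => h3 T)) ?_
    rw [← mul_sum]
    refine mul_le_mul_of_nonneg_left ?_ hΩ0
    rw [← powerset_univ, ← prod_one_add]
    calc ∏ _j : I, (1 + (g * m ^ 2 : ℝ) / n) ≤ ∏ _j : I, Real.exp ((g * m ^ 2 : ℝ) / n) := by
          refine prod_le_prod (fun _ _ => by positivity) (fun _ _ => ?_)
          have := Real.add_one_le_exp ((g * m ^ 2 : ℝ) / n)
          linarith
      _ = Real.exp (Fintype.card I * ((g * m ^ 2 : ℝ) / n)) := by
          rw [prod_const, card_univ, ← Real.exp_nat_mul]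
      _ ≤ E := by
          refine Real.exp_le_exp.mpr ?_
          have hK' : (Fintype.card I : ℝ) ≤ K * n := by exact_mod_cast hK
          calc (Fintype.card I : ℝ) * ((g * m ^ 2 : ℝ) / n) ≤ (K * n) * ((g * m ^ 2 : ℝ) / n) :=
                mul_le_mul_of_nonneg_right hK' (by positivity)
            _ = g * m ^ 2 * K := by field_simp
  set Bad := univ.filter (fun ω : I → Fin m → Fin n => 4 * E <
      ((univ.filter (fun T : Finset I => T.card ≤ g ∧ BadCfg ω T)).card : ℝ)) with hBad
  have h4 : (Bad.card : ℝ) * (4 * E) ≤ Ω * E := by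
    refine le_trans ?_ h1
    calc (Bad.card : ℝ) * (4 * E) = ∑ _ω ∈ Bad, 4 * E := by rw [sum_const, nsmul_eq_mul]
      _ ≤ ∑ ω ∈ Bad, ((univ.filter (fun T : Finset I => T.card ≤ g ∧ BadCfg ω T)).card : ℝ) :=
          sum_le_sum (fun ω hω => (mem_filter.mp hω).2.le)
      _ ≤ _ := sum_le_sum_of_subset_of_nonneg (subset_univ _) (fun _ _ _ => Nat.cast_nonneg _)
  rw [le_div_iff₀ (by norm_num)]
  nlinarith

end Pool.Agent.Lib.MP_e7a55d_co
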